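import Pool.Agent.H2.LH.CoreB

/-!
# Coherent sequences: statements inside the model and their Boolean values
-/

universe u

namespace H2.PX
open H85.Forcing H85.Forcing.BN H9.PF H2.LH

/-! ### inside a model -/

section
variable {M : Type*} (E : M → M → Prop)

/-- `C` is a closed cofinal subset of `a` -/
def ClubAt (C a : M) : Prop :=
  (∀ x, E x C → E x a) ∧ (∀ x, E x a → ∃ y, E y C ∧ E x y) ∧ ∀ b, InAcc E C b → E b C

/-- `D` agrees on a final part of `b` with `C` -/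
def EndEq (C D b : M) : Prop :=
  ∃ g, E g b ∧ ∀ x, x = g ∨ E g x → (E x D ↔ E x C ∧ E x b)

/-- no non-accumulation point of `C` is a limit ordinal -/
def NoLimN (C : M) : Prop := ∀ y, InNacc E C y → ¬ IsLim E y

/-- `c` codes a sequence `⟨C_a⟩` of closed cofinal sets such that for `b ∈ acc(C_a)` either `C_b`
agrees with `C_a` on a final part of `b`, or `nacc(C_a)` contains no limit ordinal -/
def CohSeq (kap c : M) : Prop :=
  ∀ a, E a kap → IsLim E a → ∃ C, (∀ D, Rel E c a D ↔ D = C) ∧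
    (ClubAt E C a ∧ ∀ b, InAcc E C b → ∃ D, Rel E c b D ∧ (EndEq E C D b ∨ NoLimN E C))

/-- for every coherent sequence there are `ω` unbounded sets which it never meets
simultaneously -/
def Core3 (kap om : M) : Prop :=
  ∀ c, CohSeq E kap c → ∃ b d,
    (∀ i, E i kap → ∀ x, E x kap → ∃ y, E y kap ∧ (Rel E b i y ∧ E x y)) ∧
    (IsClub E kap d ∧
      ∀ a, E a kap → E a d → IsLim E a ∧ ∃ i, E i om ∧ (E i a ∧ ∀ C, Rel E c a C →
        ∃ x, E x a ∧ ∀ y, InNacc E C y → Rel E b i y → ¬ E x y))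

/-- no limit ordinal below `κ` has finite cofinality -/
def NoFinCf (kap om : M) : Prop :=
  ∀ a, E a kap → IsLim E a → ¬ CfLt E a om

end

/-! ### Boolean values -/

variable {B : Type u} [CompleteBooleanAlgebra B]

def inNaccB (C c : BN B) : B := mem c C ⊓ (inAccB C c)ᶜ

def clubAtB (C a : BN B) : B :=
  (⨅ x, mem x C ⇨ mem x a) ⊓ ((⨅ x, mem x a ⇨ ⨆ y, mem y C ⊓ mem x y) ⊓
    ⨅ b, inAccB C b ⇨ mem b C)

def endEqB (C D b : BN B) : B :=
  ⨆ g, mem g b ⊓ ⨅ x, (beq x g ⊔ mem g x) ⇨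
    ((mem x D ⇨ (mem x C ⊓ mem x b)) ⊓ ((mem x C ⊓ mem x b) ⇨ mem x D))

def noLimNB (C : BN B) : B := ⨅ y, inNaccB C y ⇨ (isLimB y)ᶜ

def cohSeqB (kap c : BN B) : B :=
  ⨅ a, mem a kap ⇨ (isLimB a ⇨
    ⨆ C, (⨅ D, (rel c a D ⇨ beq D C) ⊓ (beq D C ⇨ rel c a D)) ⊓
      (clubAtB C a ⊓ ⨅ b, inAccB C b ⇨ ⨆ D, rel c b D ⊓ (endEqB C D b ⊔ noLimNB C)))

def core3B (kap om : BN B) : B :=
  ⨅ c, cohSeqB kap c ⇨ ⨆ b, ⨆ d,
    (⨅ i, mem i kap ⇨ ⨅ x, mem x kap ⇨ ⨆ y, mem y kap ⊓ (rel b i y ⊓ mem x y)) ⊓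
    (isClubB kap d ⊓
      ⨅ a, mem a kap ⇨ (mem a d ⇨ (isLimB a ⊓ ⨆ i, mem i om ⊓ (mem i a ⊓ ⨅ C, rel c a C ⇨
        ⨆ x, mem x a ⊓ ⨅ y, inNaccB C y ⇨ (rel b i y ⇨ (mem x y)ᶜ)))))

def cfLtB (a chi : BN B) : B :=
  ⨆ b, mem b chi ⊓ ⨆ f, isFunB f b a ⊓ ⨅ x, mem x a ⇨
    ⨆ u, mem u b ⊓ ⨆ v, rel f u v ⊓ (mem x v ⊔ beq x v)

def noFinCfB (kap om : BN B) : B :=
  ⨅ a, mem a kap ⇨ (isLimB a ⇨ (cfLtB a om)ᶜ)

instance extC_inNaccB {f k : BN B → BN B} [CongC f] [CongC k] :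
    ExtC (fun t => inNaccB (f t) (k t)) :=
  ⟨by unfold inNaccB; exact ExtC.h⟩

instance (a : BN B) : ExtC (inNaccB a) :=
  ⟨(extC_inNaccB (f := fun _ => a) (k := fun t => t)).h⟩

instance extC_clubAtB {f k : BN B → BN B} [CongC f] [CongC k] :
    ExtC (fun t => clubAtB (f t) (k t)) :=
  ⟨by unfold clubAtB; exact ExtC.h⟩

instance (a : BN B) : ExtC (clubAtB a) :=
  ⟨(extC_clubAtB (f := fun _ => a) (k := fun t => t)).h⟩

instance extC_endEqB {f k l : BN B → BN B} [CongC f] [CongC k] [CongC l] :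
    ExtC (fun t => endEqB (f t) (k t) (l t)) :=
  ⟨by unfold endEqB; exact ExtC.h⟩

instance (a b : BN B) : ExtC (endEqB a b) :=
  ⟨(extC_endEqB (f := fun _ => a) (k := fun _ => b) (l := fun t => t)).h⟩

instance extC_noLimNB {f : BN B → BN B} [CongC f] : ExtC (fun t => noLimNB (f t)) :=
  ⟨by unfold noLimNB; exact ExtC.h⟩

instance : ExtC (noLimNB : BN B → B) := ⟨(extC_noLimNB (f := fun t => t)).h⟩

instance extC_cohSeqB {f k : BN B → BN B} [CongC f] [CongC k] :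
    ExtC (fun t => cohSeqB (f t) (k t)) :=
  ⟨by unfold cohSeqB; exact ExtC.h⟩

instance (a : BN B) : ExtC (cohSeqB a) :=
  ⟨(extC_cohSeqB (f := fun _ => a) (k := fun t => t)).h⟩

instance extC_cfLtB {f k : BN B → BN B} [CongC f] [CongC k] :
    ExtC (fun t => cfLtB (f t) (k t)) :=
  ⟨by unfold cfLtB; exact ExtC.h⟩

instance (a : BN B) : ExtC (cfLtB a) :=
  ⟨(extC_cfLtB (f := fun _ => a) (k := fun t => t)).h⟩

/-! ### transfer -/

variable (U : Ult B)

set_option linter.unusedSimpArgs false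

theorem inNacc_iff (C c : BN B) : InNacc (ME U) (cl U C) (cl U c) ↔ U.T (inNaccB C c) := by
  simp only [InNacc, inNaccB, T_iInf', T_iSup', U.inf, U.sup, U.himp, U.compl,
    cl_forall U, cl_exists U, ME_cl, cl_eq, inAcc_iff]

theorem clubAt_iff (C a : BN B) : ClubAt (ME U) (cl U C) (cl U a) ↔ U.T (clubAtB C a) := by
  simp only [ClubAt, clubAtB, T_iInf', T_iSup', U.inf, U.sup, U.himp, U.compl,
    cl_forall U, cl_exists U, ME_cl, cl_eq, inAcc_iff]

theorem endEq_iff (C D b : BN B) :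
    EndEq (ME U) (cl U C) (cl U D) (cl U b) ↔ U.T (endEqB C D b) := by
  simp only [EndEq, endEqB, T_iInf', T_iSup', U.inf, U.sup, U.himp, U.compl,
    cl_forall U, cl_exists U, ME_cl, cl_eq, iff_iff_implies_and_implies]

theorem noLimN_iff (C : BN B) : NoLimN (ME U) (cl U C) ↔ U.T (noLimNB C) := by
  simp only [NoLimN, noLimNB, T_iInf', T_iSup', U.inf, U.sup, U.himp, U.compl,
    cl_forall U, cl_exists U, ME_cl, cl_eq, inNacc_iff, isLim_iff]

set_option synthInstance.maxSize 4000 in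
theorem cohSeq_iff (k c : BN B) : CohSeq (ME U) (cl U k) (cl U c) ↔ U.T (cohSeqB k c) := by
  simp only [CohSeq, cohSeqB, T_iInf', T_iSup', U.inf, U.sup, U.himp, U.compl,
    cl_forall U, cl_exists U, ME_cl, cl_eq, clubAt_iff, inAcc_iff, endEq_iff, noLimN_iff,
    isLim_iff, rel_iff, iff_iff_implies_and_implies]

set_option synthInstance.maxSize 4000 in
theorem core3_iff (k o : BN B) : Core3 (ME U) (cl U k) (cl U o) ↔ U.T (core3B k o) := by
  simp only [Core3, core3B, T_iInf', T_iSup', U.inf, U.sup, U.himp, U.compl,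
    cl_forall U, cl_exists U, ME_cl, cl_eq, cohSeq_iff, inNacc_iff, isLim_iff, rel_iff,
    H85.Forcing.BN.isClub_iff]

set_option synthInstance.maxSize 4000 in
theorem cfLt_iff (a chi : BN B) : CfLt (ME U) (cl U a) (cl U chi) ↔ U.T (cfLtB a chi) := by
  simp only [CfLt, cfLtB, T_iInf', T_iSup', U.inf, U.sup, U.himp, U.compl,
    cl_forall U, cl_exists U, ME_cl, cl_eq, isFun_iff, rel_iff]

theorem noFinCf_iff (k o : BN B) : NoFinCf (ME U) (cl U k) (cl U o) ↔ U.T (noFinCfB k o) := by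
  simp only [NoFinCf, noFinCfB, T_iInf', T_iSup', U.inf, U.sup, U.himp, U.compl,
    cl_forall U, cl_exists U, ME_cl, cl_eq, cfLt_iff, isLim_iff]

end H2.PX
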