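import Pool.Agent.H2.PX.Core
import Pool.Agent.H2.LH.Forced

/-!
# No limit ordinal is forced to have finite cofinality
-/

open Set Ordinal

namespace H2.PX
open H85.Forcing H85.Forcing.BN H85.Forcing.RO H9.PF H2.LH

variable {P : Type} [Preorder P]

theorem mem_ordN_mono {p : P} {x : BN (RO P)} {j k : W} (hjk : j ≤ k)
    (h : p ∈ (mem x (ordN j) : RO P)) : p ∈ (mem x (ordN k) : RO P) := by
  refine forces_of_dense fun q hq => ?_
  obtain ⟨r, hr, i, hi, h1⟩ := mem_ordN_elim (h.down hq)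
  exact ⟨r, hr, congr_left (congr_symm h1) (forces_mem_ordN.2 (hi.trans_le hjk))⟩

/-- the values of a function on a finite ordinal with values in a limit ordinal are densely
bounded -/
theorem dense_bound {ω' α n : W} (hω : ∀ β < ω', ¬ H9.PF.Lim β) (hα : H9.PF.Lim α) (hn : n < ω')
    {f : BN (RO P)} {p : P} (hf : p ∈ (isFunB f (ordN n) (ordN α) : RO P)) :
    ∀ m ≤ n, ∀ q ≤ p, ∃ r ≤ q, ∃ γ < α, ∀ u < m,
      r ∈ (⨅ w, rel f (ordN u) w ⇨ mem w (ordN γ) : RO P) := by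
  intro m
  induction m using WellFoundedLT.induction with
  | ind m ih =>
  intro hm q hq
  by_cases h0 : ∃ γ, γ < m
  · have h1 : ¬ H9.PF.Lim m := hω m (hm.trans_lt hn)
    have h2 : ∃ γ < m, ∀ δ < m, δ ≤ γ := by
      by_contra hcon
      push Not at hcon
      exact h1 ⟨h0, hcon⟩
    obtain ⟨k, hk, hk2⟩ := h2
    obtain ⟨r, hr, γ, hγ, h3⟩ := ih k hk (hk.le.trans hm) q hq
    have hf' := hf
    unfold isFunB at hf'
    rw [forces_ball_ordN] at hf'
    have h4 := hf' k (hk.trans_le hm)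
    rw [forces_bex_ordN] at h4
    obtain ⟨s, hs, j, hj, h5⟩ := h4 r (hr.trans hq)
    obtain ⟨h6, h7⟩ := forces_inf.1 h5
    obtain ⟨j', hj', hjj⟩ := hα.2 j hj
    refine ⟨s, hs.trans hr, max γ j', max_lt hγ hj', fun u hu => ?_⟩
    rw [forces_iInf]
    intro w
    rw [forces_himp]
    intro t ht htw
    rcases (hk2 u hu).lt_or_eq with h | h
    · exact mem_ordN_mono (le_max_left _ _)
        (forces_ball.1 (h3 u h) w t (ht.trans hs) htw)
    · subst h
      have h8 : t ∈ beq w (ordN j) := forces_ball.1 h7 w t ht htw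
      exact congr_left (congr_symm h8) (forces_mem_ordN.2 (hjj.trans_le (le_max_right _ _)))
  · obtain ⟨γ, hγ⟩ := hα.1
    exact ⟨q, le_rfl, γ, hγ, fun u hu => absurd ⟨u, hu⟩ h0⟩

theorem forces_noFinCf {ω' : W} (h : H9.PF.Lim ω' ∧ ∀ β < ω', ¬ H9.PF.Lim β) (p : P) :
    p ∈ (noFinCfB (kapN W) (ordN ω') : RO P) := by
  unfold noFinCfB
  rw [forces_ball_kapN]
  intro α
  rw [forces_himp]
  intro q _ hα
  rw [forces_isLimB] at hα
  rw [forces_compl]
  intro r _ hcf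
  unfold cfLtB at hcf
  rw [forces_bex_ordN] at hcf
  obtain ⟨s, hs, n, hn, h1⟩ := hcf r le_rfl
  obtain ⟨t, ht, f, h2⟩ := forces_iSup.1 h1 s le_rfl
  obtain ⟨h3, h4⟩ := forces_inf.1 h2
  obtain ⟨t1, ht1, γ, hγ, h5⟩ := dense_bound h.2 hα hn h3 n le_rfl t le_rfl
  rw [forces_ball_ordN] at h4
  have h6 := h4 γ hγ
  rw [forces_bex_ordN] at h6
  obtain ⟨t2, ht2, u, hu, h7⟩ := h6 t1 ht1
  obtain ⟨t3, ht3, v, h8⟩ := forces_iSup.1 h7 t2 le_rfl
  obtain ⟨h9, h10⟩ := forces_inf.1 h8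
  have h11 : t3 ∈ mem v (ordN γ) := forces_ball.1 (h5 u hu) v t3 (ht3.trans ht2) h9
  obtain ⟨t4, ht4, h12⟩ := forces_sup.1 h10 t3 le_rfl
  obtain ⟨t5, ht5, j, hj, h13⟩ := mem_ordN_elim (h11.down ht4)
  rcases h12 with h12 | h12
  · have h14 : t5 ∈ (mem (ordN γ) (ordN j) : RO P) := congr_right h13 (h12.down ht5)
    exact lt_asymm hj (forces_mem_ordN.1 h14)
  · have h14 : t5 ∈ (mem (ordN γ) (ordN γ) : RO P) :=
      congr_left (congr_symm (h12.down ht5)) (h11.down (ht5.trans ht4))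
    exact lt_irrefl γ (forces_mem_ordN.1 h14)

end H2.PX
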