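import Pool.Agent.H9.PF.Interface

/-!
# Interface between the combinatorial half and the forcing half (coherent sequences)

`f e y t`, `g e y t` are Boolean values: `t = false`: `y` is a non-accumulation point of the row
`e`; `t = true`: `y` is an accumulation point of the row `e`. `f` are the main rows (the rows that
have to be killed), `g` the reference rows.
-/

open Ordinal

namespace H2.PX
open H85.Forcing H85.Forcing.RO H9.PF

/-- what is required of the rows -/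
structure Rows {P : Type} [Preorder P] (f g : W → W → Bool → RO P) : Prop where
  /-- if `δ` is not an accumulation point of the row `e`, then the row is bounded below `δ` -/
  cl : ∀ e δ, Lim e → Lim δ → δ < e → ∀ p, p ∈ (f e δ true)ᶜ →
    ∃ q ≤ p, ∃ h < δ, ∀ y, h ≤ y → y < δ → ∀ t, q ∈ (f e y t)ᶜ
  /-- if `δ` is an accumulation point of the row `e`, then the row agrees with the reference row
  `δ` on a final part of `δ` -/
  coh : ∀ e δ, Lim e → Lim δ → δ < e → ∀ p, p ∈ f e δ true →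
    ∃ q ≤ p, ∃ h < δ, ∀ y, h ≤ y → y < δ → ∀ t, ∀ r ≤ q, (r ∈ f e y t ↔ r ∈ g δ y t)
  /-- not threaded by a set of the ground model -/
  nt : ∀ X : Set W, (∀ γ, ∃ ξ ∈ X, γ < ξ) → (∀ x ∈ X, Lim x) → ∀ p, ∃ q ≤ p, ∃ δ, Lim δ ∧
    ∀ h < δ, ∀ q' ≤ q, ∃ r ≤ q', ∃ x ∈ X, h < x ∧ x < δ ∧ r ∈ (g δ x true)ᶜ

structure Good2 (P : Type) [Preorder P] (L : W → W → RO P) : Prop where
  nonempty : Nonempty P
  /-- the countable chain condition -/
  ccc : ∀ A : Set P, (∀ p ∈ A, ∀ q ∈ A, (∃ r, r ≤ p ∧ r ≤ q) → p = q) → A.Countable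
  L_lt : ∀ (p : P) (α x : W), p ∈ L α x → x < α
  L_cof : ∀ α, Lim α → ∀ γ < α, ∀ p : P, ∃ q ≤ p, ∃ x, γ < x ∧ q ∈ L α x
  L_fin : LadF L
  /-- the generic ladder system meets every uncountable set -/
  hit : ∀ F : W → P × W, (∀ ξ, ξ < (F ξ).2) → ∀ g : W → W,
    ∃ α, Lim α ∧ (∀ γ < α, g γ < α) ∧ ∃ q : P, ∀ q' ≤ q, ∀ γ < α,
      ∃ ξ, γ < (F ξ).2 ∧ (F ξ).2 < α ∧ ∃ r ≤ q', r ≤ (F ξ).1 ∧ r ∈ L α (F ξ).2
  /-- for all rows there are `ω` unbounded sets (of limits) such that every main row is disjoint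
  from one of them -/
  kill : ∀ f g : W → W → Bool → RO P, Rows f g → ∃ b : ℕ → W → RO P,
    (∀ (i : ℕ) (γ : W) (p : P), ∃ q ≤ p, ∃ x, γ < x ∧ q ∈ b i x) ∧
    (∀ (i : ℕ) (x : W) (p : P), p ∈ b i x → Lim x) ∧
    ∀ α, Lim α → ∀ p : P, ∃ q ≤ p, ∃ i, ∀ x < α, q ∈ (b i x ⊓ f α x false)ᶜ

end H2.PX
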