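import Pool.Agent.H2.PX.Core
import Pool.Agent.H2.PX.Interface
import Pool.Agent.H2.LH.Forced2
import Pool.Agent.H9.PF.Basic

/-!
# Forced statements about coherent sequences
-/

open Set Ordinal

namespace H2.PX
open H85.Forcing H85.Forcing.BN H85.Forcing.RO H9.PF H2.LH

variable {P : Type} [Preorder P]

/-! ### names of subsets of `e` -/

theorem mem_sub {p : P} {C : BN (RO P)} {e : W} (h : p ∈ (⨅ x, mem x C ⇨ mem x (ordN e) : RO P))
    {z : BN (RO P)} (hz : p ∈ mem z C) : ∃ q ≤ p, ∃ j < e, q ∈ beq z (ordN j) :=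
  mem_ordN_elim (forces_ball.1 h z p le_rfl hz)

theorem acc_char {p : P} {C : BN (RO P)} {e : W}
    (h : p ∈ (⨅ x, mem x C ⇨ mem x (ordN e) : RO P)) (y : W) {q : P} (hq : q ≤ p) :
    q ∈ inAccB C (ordN y) ↔ (∃ b, b < y) ∧
      (∀ b < y, ∀ r ≤ q, ∃ s ≤ r, ∃ x, b < x ∧ x < y ∧ s ∈ mem (ordN x) C) ∧
      ∀ r ≤ q, ∃ s ≤ r, ∃ x, y < x ∧ s ∈ mem (ordN x) C := by
  unfold inAccB
  rw [forces_inf, forces_inf]
  constructor
  · rintro ⟨h1, h2, h3⟩
    refine ⟨?_, ?_, ?_⟩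
    · obtain ⟨r, _, b, hb⟩ := forces_iSup.1 h1 q le_rfl
      obtain ⟨_, _, j, hj, -⟩ := mem_ordN_elim hb
      exact ⟨j, hj⟩
    · rw [forces_ball_ordN] at h2
      intro b hb r hr
      obtain ⟨s, hs, z, hz⟩ := forces_iSup.1 (h2 b hb) r hr
      obtain ⟨hz1, hz2⟩ := forces_inf.1 hz
      obtain ⟨hz2, hz3⟩ := forces_inf.1 hz2
      obtain ⟨t, ht, j, hj, hzj⟩ := mem_ordN_elim hz2
      refine ⟨t, ht.trans hs, j, ?_, hj, congr_left hzj (hz1.down ht)⟩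
      exact forces_mem_ordN.1 (congr_right hzj (hz3.down ht))
    · intro r hr
      obtain ⟨s, hs, z, hz⟩ := forces_iSup.1 h3 r hr
      obtain ⟨hz1, hz2⟩ := forces_inf.1 hz
      obtain ⟨t, ht, j, hj, hzj⟩ := mem_sub (h.down (hs.trans (hr.trans hq))) hz1
      exact ⟨t, ht.trans hs, j, forces_mem_ordN.1 (congr_right hzj (hz2.down ht)),
        congr_left hzj (hz1.down ht)⟩
  · rintro ⟨⟨b, hb⟩, h2, h3⟩
    refine ⟨forces_iSup_of (ordN b) (forces_mem_ordN.2 hb), ?_, ?_⟩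
    · rw [forces_ball_ordN]
      intro b hb
      rw [forces_iSup]
      intro r hr
      obtain ⟨s, hs, x, hx1, hx2, hx3⟩ := h2 b hb r hr
      exact ⟨s, hs, ordN x, forces_inf.2 ⟨hx3, forces_inf.2
        ⟨forces_mem_ordN.2 hx2, forces_mem_ordN.2 hx1⟩⟩⟩
    · rw [forces_iSup]
      intro r hr
      obtain ⟨s, hs, x, hx1, hx2⟩ := h3 r hr
      exact ⟨s, hs, ordN x, forces_inf.2 ⟨hx2, forces_mem_ordN.2 hx1⟩⟩

/-- `r` forces that `C` is the `e`-th set of the coherent sequence `c` -/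
structure Rep (r : P) (c : BN (RO P)) (e : W) (C : BN (RO P)) : Prop where
  rl : ∀ D, ∀ s ≤ r, (s ∈ rel c (ordN e) D ↔ s ∈ beq D C)
  sub : r ∈ (⨅ x, mem x C ⇨ mem x (ordN e) : RO P)
  cof : ∀ x < e, ∀ s ≤ r, ∃ t ≤ s, ∃ y, x < y ∧ t ∈ mem (ordN y) C
  clo : ∀ y : W, ∀ s ≤ r, s ∈ inAccB C (ordN y) → s ∈ mem (ordN y) C
  coh : ∀ δ : W, ∀ s ≤ r, s ∈ inAccB C (ordN δ) →
    s ∈ (⨆ D, BN.rel c (ordN δ) D ⊓ (endEqB C D (ordN δ) ⊔ noLimNB C) : RO P)

theorem Rep.mono {r r' : P} (h : r' ≤ r) {c C : BN (RO P)} {e : W} (H : Rep r c e C) :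
    Rep r' c e C where
  rl D s hs := H.rl D s (hs.trans h)
  sub := H.sub.down h
  cof x hx s hs := H.cof x hx s (hs.trans h)
  clo y s hs := H.clo y s (hs.trans h)
  coh δ s hs := H.coh δ s (hs.trans h)

theorem cohSeqB_elim {p : P} {c : BN (RO P)} (h : p ∈ cohSeqB (kapN W) c) {e : W}
    (he : H9.PF.Lim e) : ∀ q ≤ p, ∃ r ≤ q, ∃ C, Rep r c e C := by
  intro q hq
  unfold cohSeqB at h
  rw [forces_ball_kapN] at h
  have h1 := forces_himp.1 (h e) q hq ((forces_isLimB e).2 he)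
  obtain ⟨r, hr, C, hC⟩ := forces_iSup.1 h1 q le_rfl
  obtain ⟨hC1, hC2⟩ := forces_inf.1 hC
  obtain ⟨hC2, hC3⟩ := forces_inf.1 hC2
  unfold clubAtB at hC2
  obtain ⟨hC4, hC5⟩ := forces_inf.1 hC2
  obtain ⟨hC5, hC6⟩ := forces_inf.1 hC5
  refine ⟨r, hr, C, ⟨fun D s hs => ?_, hC4, ?_, ?_, ?_⟩⟩
  · have h2 := forces_inf.1 (forces_iInf.1 hC1 D)
    exact ⟨forces_himp.1 h2.1 s hs, forces_himp.1 h2.2 s hs⟩
  · rw [forces_ball_ordN] at hC5
    intro x hx s hs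
    obtain ⟨t, ht, z, hz⟩ := forces_iSup.1 (hC5 x hx) s hs
    obtain ⟨hz1, hz2⟩ := forces_inf.1 hz
    obtain ⟨u, hu, j, hj, hzj⟩ := mem_sub (hC4.down (ht.trans hs)) hz1
    exact ⟨u, hu.trans ht, j, forces_mem_ordN.1 (congr_right hzj (hz2.down hu)),
      congr_left hzj (hz1.down hu)⟩
  · intro y s hs h2
    exact forces_himp.1 (forces_iInf.1 hC6 (ordN y)) s hs h2
  · intro δ s hs h2
    exact forces_himp.1 (forces_iInf.1 hC3 (ordN δ)) s hs h2

/-- values computed from a representation -/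
theorem Rep.val {r : P} {c C : BN (RO P)} {e : W} (H : Rep r c e C)
    (φ : BN (RO P) → RO P) [hφ : ExtC φ] {s : P} (hs : s ≤ r) :
    s ∈ (⨆ D, BN.rel c (ordN e) D ⊓ φ D : RO P) ↔ s ∈ φ C := by
  constructor
  · intro h
    refine forces_of_dense fun t ht => ?_
    obtain ⟨u, hu, D, hD⟩ := forces_iSup.1 h t ht
    obtain ⟨hD1, hD2⟩ := forces_inf.1 hD
    exact ⟨u, hu, congr_ext φ ((H.rl D u (hu.trans (ht.trans hs))).1 hD1) hD2⟩
  · intro h
    refine forces_iSup_of C (forces_inf.2 ⟨(H.rl C s hs).2 ?_, h⟩)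
    rw [beq_refl]; exact forces_top

/-- the condition `p2` as an element of the Boolean algebra -/
def pr (p2 : P) : RO P := regl fun q => q = p2

theorem forces_pr {p p2 : P} : p ∈ pr p2 ↔ ∀ q ≤ p, ∃ r ≤ q, r ≤ p2 := by
  unfold pr
  rw [forces_regl]
  constructor
  · intro h q hq
    obtain ⟨r, hr, s, rfl, hs⟩ := h q hq
    exact ⟨r, hr, hs⟩
  · intro h q hq
    obtain ⟨r, hr, hs⟩ := h q hq
    exact ⟨r, hr, p2, rfl, hs⟩

theorem pr_of_le {p p2 : P} (h : p ≤ p2) : p ∈ pr p2 := forces_pr.2 fun q hq => ⟨q, le_rfl, hq.trans h⟩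

/-- the value of: `y` is an accumulation (`t = true`) or a non-accumulation (`t = false`) point
of the `e`-th set of `c` -/
noncomputable def st (c : BN (RO P)) (e y : W) : Bool → RO P
  | true => ⨆ D, rel c (ordN e) D ⊓ inAccB D (ordN y)
  | false => ⨆ D, rel c (ordN e) D ⊓ inNaccB D (ordN y)

/-- the value of: the `e`-th set of `c` has a non-accumulation point which is a limit -/
noncomputable def kV (c : BN (RO P)) (e : W) : RO P := ⨆ D, rel c (ordN e) D ⊓ (noLimNB D)ᶜ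

instance (y : W) : ExtC (fun D : BN (RO P) => inAccB D (ordN y)) :=
  ⟨(extC_inAccB (f := fun t : BN (RO P) => t) (k := fun _ => (ordN y : BN (RO P)))).h⟩

instance (y : W) : ExtC (fun D : BN (RO P) => inNaccB D (ordN y)) :=
  ⟨(extC_inNaccB (f := fun t : BN (RO P) => t) (k := fun _ => (ordN y : BN (RO P)))).h⟩

theorem Rep.acc {r : P} {c C : BN (RO P)} {e : W} (H : Rep r c e C) (y : W) {s : P} (hs : s ≤ r) :
    s ∈ st c e y true ↔ s ∈ inAccB C (ordN y) :=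
  H.val (fun D => inAccB D (ordN y)) hs

theorem Rep.nacc {r : P} {c C : BN (RO P)} {e : W} (H : Rep r c e C) (y : W) {s : P} (hs : s ≤ r) :
    s ∈ st c e y false ↔ s ∈ mem (ordN y) C ∧ ∀ u ≤ s, ¬ u ∈ inAccB C (ordN y) := by
  refine (H.val (fun D => inNaccB D (ordN y)) hs).trans ?_
  unfold inNaccB
  rw [forces_inf, forces_compl]

theorem Rep.kv {r : P} {c C : BN (RO P)} {e : W} (H : Rep r c e C) {s : P} (hs : s ≤ r) :
    s ∈ kV c e ↔ s ∈ (noLimNB C)ᶜ :=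
  H.val (fun D => (noLimNB D)ᶜ) hs

theorem Rep.accChar {r : P} {c C : BN (RO P)} {e : W} (H : Rep r c e C) {y : W} (hy : y < e)
    {s : P} (hs : s ≤ r) :
    s ∈ inAccB C (ordN y) ↔ (∃ b, b < y) ∧
      ∀ b < y, ∀ r ≤ s, ∃ s ≤ r, ∃ x, b < x ∧ x < y ∧ s ∈ mem (ordN x) C := by
  rw [acc_char H.sub y hs]
  refine ⟨fun h => ⟨h.1, h.2.1⟩, fun h => ⟨h.1, h.2, fun u hu => ?_⟩⟩
  obtain ⟨t, ht, x, hx1, hx2⟩ := H.cof y hy u (hu.trans hs)
  exact ⟨t, ht, x, hx1, hx2⟩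

/-- if `δ` is not an accumulation point, the set is bounded below `δ` -/
theorem Rep.cl {r : P} {c C : BN (RO P)} {e : W} (H : Rep r c e C) {δ : W} (hδ : H9.PF.Lim δ)
    (hδe : δ < e) {p : P} (hp : p ≤ r) (h : ¬ p ∈ inAccB C (ordN δ)) :
    ∃ q ≤ p, ∃ h < δ, ∀ y, h ≤ y → y < δ → ∀ s ≤ q, ¬ s ∈ mem (ordN y) C := by
  rw [H.accChar hδe hp] at h
  have h2 : ¬ ∀ b < δ, ∀ r ≤ p, ∃ s ≤ r, ∃ x, b < x ∧ x < δ ∧ s ∈ mem (ordN x) C :=
    fun h' => h ⟨hδ.1, h'⟩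
  push Not at h2
  obtain ⟨b, hb, q, hq, h3⟩ := h2
  obtain ⟨h', hh', hbh⟩ := hδ.2 b hb
  exact ⟨q, hq, h', hh', fun y hy1 hy2 s hs => h3 s hs y (hbh.trans_le hy1) hy2⟩

/-- if `δ` is an accumulation point, then the sets at `e` and `δ` agree on a final part of `δ` -/
theorem Rep.eqv {r r1 : P} {c C C' : BN (RO P)} {e δ : W} (H : Rep r c e C) (H' : Rep r1 c δ C')
    (hr1 : r1 ≤ r) (hδ : H9.PF.Lim δ) (hδe : δ < e) (h : r1 ∈ inAccB C (ordN δ))
    (hk : r1 ∈ (noLimNB C)ᶜ) :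
    ∃ q ≤ r1, ∃ h < δ, ∀ y, h ≤ y → y < δ → ∀ s ≤ q,
      (s ∈ mem (ordN y) C ↔ s ∈ mem (ordN y) C') ∧
      (s ∈ inAccB C (ordN y) ↔ s ∈ inAccB C' (ordN y)) := by
  obtain ⟨r2, hr2, D, hD⟩ := forces_iSup.1 (H.coh δ r1 hr1 h) r1 le_rfl
  obtain ⟨hD1, hD2⟩ := forces_inf.1 hD
  have hDC : r2 ∈ beq D C' := (H'.rl D r2 hr2).1 hD1
  obtain ⟨r3, hr3, h3⟩ := forces_sup.1 hD2 r2 le_rfl
  have h4 : r3 ∈ endEqB C D (ordN δ) := by
    rcases h3 with h3 | h3
    · exact h3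
    · exact absurd h3 (forces_compl.1 hk r3 (hr3.trans hr2))
  have : ExtC (fun D : BN (RO P) => endEqB C D (ordN δ)) :=
    ⟨(extC_endEqB (f := fun _ => C) (k := fun t : BN (RO P) => t) (l := fun _ => (ordN δ : BN (RO P)))).h⟩
  have h5 : r3 ∈ endEqB C C' (ordN δ) :=
    congr_ext (fun D => endEqB C D (ordN δ)) (hDC.down hr3) h4
  unfold endEqB at h5
  obtain ⟨r4, hr4, g, hg⟩ := forces_iSup.1 h5 r3 le_rfl
  obtain ⟨hg1, hg2⟩ := forces_inf.1 hg
  obtain ⟨r5, hr5, j, hj, hgj⟩ := mem_ordN_elim hg1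
  have hr51 : r5 ≤ r1 := hr5.trans (hr4.trans (hr3.trans hr2))
  have hmem : ∀ y, j < y → y < δ → ∀ s ≤ r5, (s ∈ mem (ordN y) C ↔ s ∈ mem (ordN y) C') := by
    intro y hy1 hy2 s hs
    have h6 := forces_himp.1 (forces_iInf.1 hg2 (ordN y)) s (hs.trans hr5) (by
      rw [forces_sup]
      intro t ht
      refine ⟨t, le_rfl, Or.inr ?_⟩
      have h7 : t ∈ (mem (ordN j) (ordN y) : RO P) := forces_mem_ordN.2 hy1
      exact congr_left (congr_symm (hgj.down (ht.trans hs))) h7)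
    obtain ⟨h7, h8⟩ := forces_inf.1 h6
    constructor
    · intro h9
      exact forces_himp.1 h8 s le_rfl (forces_inf.2 ⟨h9, forces_mem_ordN.2 hy2⟩)
    · intro h9
      exact (forces_inf.1 (forces_himp.1 h7 s le_rfl h9)).1
  obtain ⟨h', hh', hjh⟩ := hδ.2 j hj
  refine ⟨r5, hr51, h', hh', fun y hy1 hy2 s hs => ⟨hmem y (hjh.trans_le hy1) hy2 s hs, ?_⟩⟩
  rw [H.accChar (hy2.trans hδe) (hs.trans (hr51.trans hr1)), H'.accChar hy2 (hs.trans hr51)]
  have hjy : j < y := hjh.trans_le hy1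
  constructor
  · rintro ⟨k1, k2⟩
    refine ⟨k1, fun b hb u hu => ?_⟩
    obtain ⟨v, hv, x, hx1, hx2, hx3⟩ := k2 (max b j) (max_lt hb hjy) u hu
    exact ⟨v, hv, x, (le_max_left _ _).trans_lt hx1, hx2,
      (hmem x ((le_max_right _ _).trans_lt hx1) (hx2.trans hy2) v (hv.trans (hu.trans hs))).1 hx3⟩
  · rintro ⟨k1, k2⟩
    refine ⟨k1, fun b hb u hu => ?_⟩
    obtain ⟨v, hv, x, hx1, hx2, hx3⟩ := k2 (max b j) (max_lt hb hjy) u hu
    exact ⟨v, hv, x, (le_max_left _ _).trans_lt hx1, hx2,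
      (hmem x ((le_max_right _ _).trans_lt hx1) (hx2.trans hy2) v (hv.trans (hu.trans hs))).2 hx3⟩

/-! ### the rows -/

/-- `p` forces that for every limit `δ` of `X` the accumulation points of the `δ`-th set contain a
final part of `X ∩ δ` -/
def Thr (c : BN (RO P)) (X : Set W) (p : P) : Prop :=
  ∀ δ, H9.PF.Lim δ → (∀ h < δ, ∃ x ∈ X, h < x ∧ x < δ) → ∀ q ≤ p, ∃ r ≤ q, ∃ h < δ,
    ∀ x ∈ X, h < x → x < δ → r ∈ st c δ x true

theorem exists_limit_of_unb (X : Set W) (hX : ∀ γ, ∃ ξ ∈ X, γ < ξ) (b : W) :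
    ∃ δ, H9.PF.Lim δ ∧ b < δ ∧ ∀ h < δ, ∃ x ∈ X, h < x ∧ x < δ := by
  choose n hn1 hn2 using hX
  obtain ⟨δ, hδ, hb, hcl⟩ := exists_closed n b
  exact ⟨δ, hδ, hb, fun h hh => ⟨n h, hn1 h, hn2 h, hcl h hh⟩⟩

theorem rows (c : BN (RO P)) {p2 : P} (hc : p2 ∈ cohSeqB (kapN W) c)
    (hthr : ∀ p3 ≤ p2, ∀ X : Set W, (∀ γ, ∃ ξ ∈ X, γ < ξ) → (∀ x ∈ X, H9.PF.Lim x) → ¬ Thr c X p3) :
    Rows (fun e y t => kV c e ⊓ (pr p2 ⊓ st c e y t)) (fun e y t => pr p2 ⊓ st c e y t) := by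
  have hmemv : ∀ (e y : W) (t : Bool) (s : P), s ∈ kV c e ⊓ (pr p2 ⊓ st c e y t) ↔
      s ∈ kV c e ∧ s ∈ pr p2 ∧ s ∈ st c e y t := fun e y t s => by
    rw [forces_inf, forces_inf]
  have hmemg : ∀ (e y : W) (t : Bool) (s : P), s ∈ pr p2 ⊓ st c e y t ↔
      s ∈ pr p2 ∧ s ∈ st c e y t := fun e y t s => by
    rw [forces_inf]
  refine ⟨?_, ?_, ?_⟩
  · intro e δ he hδ hδe p hp
    by_cases hh : ∃ p' ≤ p, p' ≤ p2 ∧ p' ∈ kV c e
    · obtain ⟨p', hp', hp2, hk⟩ := hh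
      obtain ⟨r, hr, C, H⟩ := cohSeqB_elim (hc.down hp2) he p' le_rfl
      have h1 : ¬ r ∈ inAccB C (ordN δ) := by
        intro h2
        refine forces_compl.1 hp r (hr.trans hp') ((hmemv _ _ _ _).2 ⟨hk.down hr,
          pr_of_le (hr.trans hp2), (H.acc δ le_rfl).2 h2⟩)
      obtain ⟨q, hq, h, hh, h3⟩ := H.cl hδ hδe le_rfl h1
      refine ⟨q, hq.trans (hr.trans hp'), h, hh, fun y hy1 hy2 t => ?_⟩
      rw [forces_compl]
      intro s hs h4
      obtain ⟨-, -, h5⟩ := (hmemv _ _ _ _).1 h4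
      cases t with
      | true => exact h3 y hy1 hy2 s hs (H.clo y s (hs.trans hq) ((H.acc y (hs.trans hq)).1 h5))
      | false => exact h3 y hy1 hy2 s hs ((H.nacc y (hs.trans hq)).1 h5).1
    · obtain ⟨h, hh'⟩ := hδ.1
      refine ⟨p, le_rfl, h, hh', fun y _ _ t => ?_⟩
      rw [forces_compl]
      intro s hs h4
      obtain ⟨h5, h6, -⟩ := (hmemv _ _ _ _).1 h4
      obtain ⟨u, hu, hu2⟩ := forces_pr.1 h6 s le_rfl
      exact hh ⟨u, hu.trans hs, hu2, h5.down hu⟩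
  · intro e δ he hδ hδe p hp
    obtain ⟨h1, h2, h3⟩ := (hmemv _ _ _ _).1 hp
    obtain ⟨p', hp', hp2⟩ := forces_pr.1 h2 p le_rfl
    obtain ⟨r, hr, C, H⟩ := cohSeqB_elim (hc.down hp2) he p' le_rfl
    obtain ⟨r1, hr1, C', H'⟩ := cohSeqB_elim (hc.down (hr.trans hp2)) hδ r le_rfl
    have h4 : r1 ∈ inAccB C (ordN δ) := (H.acc δ hr1).1 (h3.down (hr1.trans (hr.trans hp')))
    have h5 : r1 ∈ (noLimNB C)ᶜ := (H.kv hr1).1 (h1.down (hr1.trans (hr.trans hp')))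
    obtain ⟨q, hq, h, hh, h6⟩ := H.eqv H' hr1 hδ hδe h4 h5
    refine ⟨q, hq.trans (hr1.trans (hr.trans hp')), h, hh, fun y hy1 hy2 t s hs => ?_⟩
    have hsr1 : s ≤ r1 := hs.trans hq
    have hsr : s ≤ r := hsr1.trans hr1
    have hk : s ∈ kV c e := h1.down (hsr.trans (hr.trans hp'))
    have hpr : s ∈ pr p2 := h2.down (hsr.trans (hr.trans hp'))
    have key : s ∈ st c e y t ↔ s ∈ st c δ y t := by
      cases t with
      | true =>
        rw [H.acc y hsr, H'.acc y hsr1]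
        exact (h6 y hy1 hy2 s hs).2
      | false =>
        rw [H.nacc y hsr, H'.nacc y hsr1, (h6 y hy1 hy2 s hs).1]
        refine and_congr_right fun _ => forall₂_congr fun u hu => not_congr ?_
        exact (h6 y hy1 hy2 u (hu.trans hs)).2
    rw [hmemv, hmemg, key]
    exact ⟨fun h => h.2, fun h => ⟨hk, h⟩⟩
  · intro X hX hXl p
    by_cases hh : ∃ p' ≤ p, p' ≤ p2
    · obtain ⟨p', hp', hp2⟩ := hh
      have h1 := hthr p' hp2 X hX hXl
      unfold Thr at h1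
      push Not at h1
      obtain ⟨δ, hδ, _, q, hq, h2⟩ := h1
      refine ⟨q, hq.trans hp', δ, hδ, fun h hh q' hq' => ?_⟩
      obtain ⟨x, hx, hx1, hx2, hx3⟩ := h2 q' hq' h hh
      have h3 : ∃ r ≤ q', r ∈ (st c δ x true)ᶜ := by
        by_contra hcon
        push Not at hcon
        apply hx3
        refine forces_of_dense fun u hu => ?_
        have h4 := hcon u hu
        rw [forces_compl] at h4
        push Not at h4
        obtain ⟨v, hv, h5⟩ := h4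
        exact ⟨v, hv, h5⟩
      obtain ⟨r, hr, h4⟩ := h3
      refine ⟨r, hr, x, hx, hx1, hx2, ?_⟩
      rw [forces_compl] at h4 ⊢
      exact fun s hs h5 => h4 s hs ((hmemg _ _ _ _).1 h5).2
    · obtain ⟨x0, -, -⟩ := hX (Classical.arbitrary W)
      obtain ⟨δ, hδ, -, h1⟩ := exists_limit_of_unb X hX x0
      refine ⟨p, le_rfl, δ, hδ, fun h hlt q' hq' => ?_⟩
      obtain ⟨x, hx, hx1, hx2⟩ := h1 h hlt
      refine ⟨q', le_rfl, x, hx, hx1, hx2, ?_⟩
      rw [forces_compl]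
      intro s hs h5
      obtain ⟨u, hu, hu2⟩ := forces_pr.1 ((hmemg _ _ _ _).1 h5).1 s le_rfl
      exact hh ⟨u, hu.trans (hs.trans hq'), hu2⟩

/-! ### the core statement -/

/-- `p` forces that the sets `b_n` and the club `d` are as in `Core3` -/
theorem forces_body {p : P} {c : BN (RO P)} (hc : p ∈ cohSeqB (kapN W) c) {ω' : W} (e : ℕ → W)
    (heω : ∀ n, e n < ω') (heL : ∀ α, H9.PF.Lim α → ∀ n, e n < α)
    (R : W → W → RO P) (S : W → Prop) (hS : ∀ α, S α → H9.PF.Lim α)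
    (hScl : p ∈ (isClubB (kapN W) (setN (fun α : W => (RO.ofProp (S α) : RO P))) : RO P))
    (hR : ∀ (i x : W) (q : P), ∃ r ≤ q, ∃ y, r ∈ R i y ∧ x < y)
    (hk : ∀ α, S α → ∀ q ≤ p, ∃ r ≤ q, ∃ n, ∃ γ < α, ∀ x, γ < x → x < α →
      ∀ s ≤ r, s ∈ R (e n) x → ¬ s ∈ st c α x false) :
    p ∈ (⨆ b, ⨆ d,
      (⨅ i, mem i (kapN W) ⇨ ⨅ x, mem x (kapN W) ⇨
        ⨆ y, mem y (kapN W) ⊓ (rel b i y ⊓ mem x y)) ⊓
      (isClubB (kapN W) d ⊓
        ⨅ a, mem a (kapN W) ⇨ (mem a d ⇨ (isLimB a ⊓ ⨆ i, mem i (ordN ω') ⊓ (mem i a ⊓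
          ⨅ C, rel c a C ⇨
          ⨆ x, mem x a ⊓ ⨅ y, inNaccB C y ⇨ (rel b i y ⇨ (mem x y)ᶜ))))) : RO P) := by
  refine forces_iSup_of (relN R) (forces_iSup_of (setN (fun α : W => (RO.ofProp (S α) : RO P))) ?_)
  rw [forces_inf, forces_inf]
  refine ⟨?_, hScl, ?_⟩
  · simp only [forces_ball_kapN, forces_bex_kapN, forces_inf, rel_relN, forces_mem_ordN]
    intro i x q _
    obtain ⟨r, hr, y, hy, h2⟩ := hR i x q
    exact ⟨r, hr, y, hy, h2⟩
  · rw [forces_ball_kapN]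
    intro α
    rw [forces_himp]
    intro q hq hα
    rw [mem_setN, forces_ofProp] at hα
    rw [forces_inf]
    refine ⟨(forces_isLimB α).2 (hS α hα), forces_of_dense fun q1 hq1 => ?_⟩
    obtain ⟨q2, hq2, n, γ, hγ, h⟩ := hk α hα q1 (hq1.trans hq)
    refine ⟨q2, hq2, forces_iSup_of (ordN (e n)) (forces_inf.2
      ⟨forces_mem_ordN.2 (heω n), forces_inf.2 ⟨forces_mem_ordN.2 (heL α (hS α hα) n), ?_⟩⟩)⟩
    rw [forces_ball]
    intro C s hs hC
    refine forces_iSup_of (ordN γ) (forces_inf.2 ⟨forces_mem_ordN.2 hγ, ?_⟩)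
    rw [forces_ball]
    intro y t ht hyC
    rw [forces_himp]
    intro u hu hby
    rw [forces_compl]
    intro v hv hγy
    have hvp : v ≤ p := hv.trans (hu.trans (ht.trans (hs.trans (hq2.trans (hq1.trans hq)))))
    obtain ⟨v1, hv1, C', H⟩ := cohSeqB_elim (hc.down hvp) (hS α hα) v le_rfl
    have hCC : v1 ∈ beq C C' :=
      (H.rl C v1 le_rfl).1 (hC.down (hv1.trans (hv.trans (hu.trans ht))))
    have hyC1 : v1 ∈ inNaccB C y := hyC.down (hv1.trans (hv.trans hu))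
    have : ExtC (fun C : BN (RO P) => inNaccB C y) :=
      ⟨(extC_inNaccB (f := fun t : BN (RO P) => t) (k := fun _ => y)).h⟩
    have hyC' : v1 ∈ inNaccB C' y := congr_ext (fun C => inNaccB C y) hCC hyC1
    have hyC2 : v1 ∈ mem y C' := by
      unfold inNaccB at hyC'
      exact (forces_inf.1 hyC').1
    obtain ⟨v2, hv2, y', hy', h5⟩ := mem_sub H.sub hyC2
    have h6 : v2 ∈ (mem (ordN γ) (ordN y') : RO P) :=
      congr_right h5 (hγy.down (hv2.trans hv1))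
    have h7 : v2 ∈ rel (relN R) (ordN (e n)) (ordN y') :=
      congr_ext (fun y => rel (relN R) (ordN (e n)) y) h5 (hby.down (hv2.trans (hv1.trans hv)))
    rw [rel_relN] at h7
    have h8 : v2 ∈ inNaccB C' (ordN y') :=
      congr_ext (fun y => inNaccB C' y) h5 (hyC'.down hv2)
    have h9 : v2 ∈ st c α y' false := (H.val (fun D => inNaccB D (ordN y')) hv2).2 h8
    exact h y' (forces_mem_ordN.1 h6) hy' v2 (hv2.trans (hv1.trans (hv.trans (hu.trans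
      (ht.trans hs))))) h7 h9

theorem forces_core3 {L : W → W → RO P} (G : Good2 P L) {ω' : W} (e : ℕ → W)
    (he : Function.Injective e) (heω : ∀ n, e n < ω') (heL : ∀ α, H9.PF.Lim α → ∀ n, e n < α)
    (p : P) : p ∈ (core3B (kapN W) (ordN ω') : RO P) := by
  classical
  unfold core3B
  rw [forces_ball]
  intro c p1 _ hc
  refine forces_of_dense fun p2 hp2 => ?_
  have hc2 := hc.down hp2
  by_cases hthr : ∃ p3 ≤ p2, ∃ X : Set W, (∀ γ, ∃ ξ ∈ X, γ < ξ) ∧ (∀ x ∈ X, H9.PF.Lim x) ∧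
      Thr c X p3
  · -- a threaded sequence
    obtain ⟨p3, hp3, X, hX, hXl, ht⟩ := hthr
    refine ⟨p3, hp3, forces_body (hc2.down hp3) e heω heL (fun _ x => RO.ofProp (x ∈ X))
      (fun δ => H9.PF.Lim δ ∧ ∀ h < δ, ∃ x ∈ X, h < x ∧ x < δ) (fun α h => h.1) ?_ ?_ ?_⟩
    · unfold isClubB
      simp only [forces_inf, forces_ball_kapN, forces_bex_kapN]
      constructor
      · intro x q _
        obtain ⟨δ, hδ, hx, h1⟩ := exists_limit_of_unb X hX x
        refine ⟨q, le_rfl, δ, ?_, forces_mem_ordN.2 hx⟩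
        rw [mem_setN]
        exact forces_ofProp.2 ⟨hδ, h1⟩
      · intro x
        rw [forces_himp]
        intro q _ hx
        rw [forces_himp]
        intro r _ hr
        rw [mem_setN]
        rw [forces_isLimB] at hx
        refine forces_ofProp.2 ⟨hx, fun h hh => ?_⟩
        simp only [forces_ball_ordN, forces_bex_ordN, forces_inf] at hr
        obtain ⟨s, _, z, hz, h1, h2⟩ := hr h hh r le_rfl
        rw [mem_setN, forces_ofProp] at h1
        obtain ⟨y, hy, hy1, hy2⟩ := h1.2 h (forces_mem_ordN.1 h2)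
        exact ⟨y, hy, hy1, hy2.trans hz⟩
    · intro i x q
      obtain ⟨ξ, hξ, h⟩ := hX x
      exact ⟨q, le_rfl, ξ, forces_ofProp.2 hξ, h⟩
    · intro α hα q hq
      obtain ⟨r, hr, h, hh, h1⟩ := ht α hα.1 hα.2 q hq
      refine ⟨r, hr, 0, h, hh, fun x hx1 hx2 s hs hsX hst => ?_⟩
      have h2 : s ∈ st c α x true := (h1 x (forces_ofProp.1 hsX) hx1 hx2).down hs
      have hsp : s ≤ p3 := hs.trans (hr.trans hq)
      obtain ⟨t, ht1, C, H⟩ := cohSeqB_elim (hc2.down (hsp.trans hp3)) hα.1 s le_rfl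
      exact ((H.nacc x le_rfl).1 (hst.down ht1)).2 t le_rfl ((H.acc x le_rfl).1 (h2.down ht1))
  · -- a sequence which is not threaded
    push Not at hthr
    obtain ⟨b, hb1, hb2, hb3⟩ := G.kill _ _ (rows c hc2 hthr)
    let R : W → W → RO P := fun i x => if h : ∃ n, e n = i then b h.choose x else ⊤
    have hR : ∀ n x, R (e n) x = b n x := by
      intro n x
      have h : ∃ m, e m = e n := ⟨n, rfl⟩
      have h2 : h.choose = n := he h.choose_spec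
      simp only [R]
      rw [dif_pos h, h2]
    refine ⟨p2, le_rfl, forces_body hc2 e heω heL R H9.PF.Lim (fun _ h => h)
      (forces_isClub_dN p2) ?_ ?_⟩
    · intro i x q
      by_cases h : ∃ n, e n = i
      · obtain ⟨n, rfl⟩ := h
        obtain ⟨r, hr, y, hy, h2⟩ := hb1 n x q
        exact ⟨r, hr, y, by rw [hR]; exact h2, hy⟩
      · obtain ⟨y, -, hy⟩ := exists_lim_gt x
        refine ⟨q, le_rfl, y, ?_, hy⟩
        simp only [R]
        rw [dif_neg h]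
        exact forces_top
    · intro α hα q hq
      obtain ⟨r, hr, n, h1⟩ := hb3 α hα q
      obtain ⟨γ, hγ⟩ := hα.1
      refine ⟨r, hr, n, γ, hγ, fun x _ hx2 s hs hsR hst => ?_⟩
      rw [hR] at hsR
      have hxL : H9.PF.Lim x := hb2 n x s hsR
      have hsp : s ≤ p2 := hs.trans (hr.trans hq)
      obtain ⟨t, ht1, C, H⟩ := cohSeqB_elim (hc2.down hsp) hα s le_rfl
      -- the set at `α` has a non-accumulation point which is a limit
      have hk : t ∈ kV c α := by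
        rw [H.kv le_rfl, forces_compl]
        intro u hu hno
        have h3 : u ∈ inNaccB C (ordN x) := (H.val (fun D => inNaccB D (ordN x)) hu).1
          (hst.down (hu.trans ht1))
        unfold noLimNB at hno
        have h4 := forces_himp.1 (forces_iInf.1 hno (ordN x)) u le_rfl h3
        exact forces_compl.1 h4 u le_rfl ((forces_isLimB x).2 hxL)
      have h5 : t ∈ (b n x ⊓ (kV c α ⊓ (pr p2 ⊓ st c α x false)) : RO P) := by
        rw [forces_inf, forces_inf, forces_inf]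
        exact ⟨hsR.down ht1, hk, pr_of_le (ht1.trans hsp), hst.down ht1⟩
      exact forces_compl.1 (h1 x hx2) t (ht1.trans hs) h5

end H2.PX
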