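import Pool.Agent.H2.PX.Prep

/-!
# The hitting theorem
-/

open Set

namespace H2.PX
open H9.PF

theorem cs_zero {p : Cd} (h : Cs 0 p) {f : Fact} (hf : f ∈ p) : ∃ α x, f = Fact.l α x := by
  have := h.2 f hf
  cases f with
  | l α x => exact ⟨α, x, rfl⟩
  | c t ν i x => exact absurd this (not_lt.2 (zero_le (a := rho ν)))
  | s ν i e => exact absurd this (not_lt.2 (zero_le (a := rho ν)))

open Classical in
/-- the case of conditions that consist of Cohen information only -/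
theorem hit_zero : HitAt 0 := by
  intro F hF g
  obtain ⟨R, U1, -, hU1, -, hR1⟩ := delta (fun ξ => ors (F ξ).1) unb_univ
  let TR : Set Fact := {f | ∃ α ∈ R, ∃ x < α, f = Fact.l α x}
  have hTR : TR.Countable := by
    have : TR ⊆ ⋃ α ∈ (R : Set W), (fun x => Fact.l α x) '' Iio α := by
      rintro f ⟨α, hα, x, hx, rfl⟩
      exact mem_biUnion hα ⟨x, hx, rfl⟩
    exact Countable.mono this (R.finite_toSet.countable.biUnion fun α _ =>
      (countable_Iio α).image _)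
  obtain ⟨U2, hU21, hU2, htr⟩ := pigeon hU1 (fun ξ => (F ξ).1.filter (fun f => f ∈ TR))
    ((countable_finsets hTR).mono (by
      rintro _ ⟨ξ, -, rfl⟩ f hf
      exact (Finset.mem_filter.1 hf).2))
  obtain ⟨f, hfm, -, hf⟩ := choose_mono (fun _ ξ => ξ ∈ U2) id (fun _ γ => by
    obtain ⟨ξ, h1, h2⟩ := hU2 γ; exact ⟨ξ, h2, h1⟩)
  let S : W → Set W := fun ξ => {g ξ, (F (f ξ)).2} ∪ ((ors (F (f ξ)).1 : Finset W) : Set W)
  obtain ⟨G, hG⟩ := exists_boundfun S fun ξ =>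
    ((countable_singleton _).insert _).union (Finset.countable_toSet _)
  obtain ⟨b0, hb0⟩ := exists_bound (s := (R : Set W)) (Finset.countable_toSet _)
  obtain ⟨α, hα, hb0α, hcl⟩ := exists_closed G b0
  have hX : ∀ ξ < α, (F (f ξ)).2 < α := fun ξ hξ =>
    (hG ξ ξ le_rfl _ (Or.inl (Or.inr rfl))).trans (hcl ξ hξ)
  have ho : ∀ ξ < α, ∀ x ∈ ors (F (f ξ)).1, x < α := fun ξ hξ x hx =>
    (hG ξ ξ le_rfl _ (Or.inr hx)).trans (hcl ξ hξ)
  refine ⟨α, hα, fun γ hγ => (hG γ γ le_rfl _ (Or.inl (Or.inl rfl))).trans (hcl γ hγ), ?_⟩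
  set q : Cd := (F (f b0)).1.filter (fun f => f ∈ TR) with hq
  have hqF : ∀ ζ, (F (f ζ)).1.filter (fun f => f ∈ TR) = q := fun ζ =>
    htr _ (hf ζ).2 _ (hf b0).2
  -- Cohen information only
  have hcz : ∀ r : Cd, (∀ u ∈ r, ∃ α x, u = Fact.l α x) →
      (∀ β x y, Fact.l β x ∈ r → Fact.l β y ∈ r → dp β x = dp β y → x = y) →
      (∀ β x, Fact.l β x ∈ r → Lim β ∧ x < β) → Cs 0 r := by
    intro r h1 h2 h3
    have hc : ∀ t ν i x, Fact.c t ν i x ∉ r := fun t ν i x h => by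
      obtain ⟨_, _, h'⟩ := h1 _ h; exact absurd h' (by simp)
    have hs : ∀ ν i x, Fact.s ν i x ∉ r := fun ν i x h => by
      obtain ⟨_, _, h'⟩ := h1 _ h; exact absurd h' (by simp)
    refine ⟨⟨⟨h2, h3, fun t ν i x h => absurd h (hc t ν i x), fun ν i e h => absurd h (hs ν i e),
      fun ν i e h => absurd h (hs ν i e), fun ν i e t x h => absurd h (hs ν i e)⟩, ?_⟩, ?_⟩
    · intro u hu
      obtain ⟨_, _, rfl⟩ := h1 u hu
      trivial
    · intro u hu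
      obtain ⟨_, _, rfl⟩ := h1 u hu
      trivial
  have hqs : q ⊆ (F (f b0)).1 := Finset.filter_subset _ _
  refine ⟨q, hcz q (fun u hu => cs_zero (hF (f b0)).1 (hqs hu))
    (fun β x y h1 h2 => (hF (f b0)).1.1.1.fl β x y (hqs h1) (hqs h2))
    (fun β x h1 => (hF (f b0)).1.1.1.ll β x (hqs h1)), ?_⟩
  intro q' h1 h3 γ hγ
  -- bounds
  have hex : ∀ β, ∃ ζ, ∀ ζ', β ∉ R → β ∈ ors (F (f ζ')).1 → ζ' = ζ := by
    intro β
    by_cases hh : ∃ ζ, β ∉ R ∧ β ∈ ors (F (f ζ)).1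
    · obtain ⟨ζ, h4, h5⟩ := hh
      refine ⟨ζ, fun ζ' _ h6 => ?_⟩
      by_contra hne
      exact h4 (hR1 _ (hU21 (hf ζ).2) _ (hU21 (hf ζ').2)
        (fun e => hne (hfm.injective e.symm)) β h5 h6)
    · exact ⟨α, fun ζ' h5 h6 => absurd ⟨ζ', h5, h6⟩ hh⟩
  choose e he using hex
  obtain ⟨x0, hx0, hx0'⟩ := dp_unb hα (q'.sup fun u => dp α (match u with
    | .l _ x => x
    | .c _ _ _ x => x
    | .s _ _ x => x))
  obtain ⟨γ1, hγ1, hγ1'⟩ := hα.bound ((ors q').image e ∪ {x0})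
  -- the index
  let ζ := max γ1 (max b0 γ)
  have hζα : ζ < α := max_lt hγ1 (max_lt hb0α hγ)
  have hζ1 : (F (f ζ)).2 < α := hX ζ hζα
  have hζ2 : ζ < (F (f ζ)).2 := (hf ζ).1.trans (hF _).2
  have hnew : ∀ β x, Fact.l β x ∈ (F (f ζ)).1 → β ∈ ors q' → Fact.l β x ∈ q' := by
    intro β x h5 h6
    have hβR : β ∈ R := by
      by_contra hβR
      have h7 : ζ = e β := he β ζ hβR (mem_ors h5)
      have h8 : e β < γ1 := hγ1' _ (Finset.mem_union_left _ (Finset.mem_image_of_mem _ h6))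
        (h7 ▸ hζα)
      rw [← h7] at h8
      exact absurd (le_max_left γ1 (max b0 γ)) (not_le.2 h8)
    have h9 : Fact.l β x ∈ (F (f ζ)).1.filter (fun f => f ∈ TR) :=
      Finset.mem_filter.2 ⟨h5, β, hβR, x, ((hF (f ζ)).1.1.1.ll β x h5).2, rfl⟩
    rw [hqF ζ] at h9
    exact h3 h9
  have hdp : ∀ x, Fact.l α x ∈ q' → dp α x < dp α (F (f ζ)).2 := by
    intro x hx
    have h5 : dp α x ≤ q'.sup fun u => dp α (match u with
      | .l _ x => x
      | .c _ _ _ x => x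
      | .s _ _ x => x) := Finset.le_sup (f := fun u => dp α (match u with
      | Fact.l _ x => x
      | .c _ _ _ x => x
      | .s _ _ x => x)) hx
    have h6 : x0 < γ1 := hγ1' x0 (Finset.mem_union_right _ (Finset.mem_singleton_self _)) hx0
    have h7 : dp α x0 ≤ dp α (F (f ζ)).2 :=
      dp_mono hα hζ1 ((h6.le.trans (le_max_left _ _)).trans hζ2.le)
    omega
  have hno : ∀ x, Fact.l α x ∉ (F (f ζ)).1 := fun x hx =>
    lt_irrefl α (ho ζ hζα α (mem_ors hx))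
  set r : Cd := insert (Fact.l α (F (f ζ)).2) (q' ∪ (F (f ζ)).1) with hr
  have hmem : ∀ u, u ∈ r ↔ u = Fact.l α (F (f ζ)).2 ∨ u ∈ q' ∨ u ∈ (F (f ζ)).1 := fun u => by
    rw [hr, Finset.mem_insert, Finset.mem_union]
  refine ⟨f ζ, ?_, hζ1, r, hcz r ?_ ?_ ?_, ?_, ?_, ?_⟩
  · exact lt_of_le_of_lt ((le_max_right _ _).trans (le_max_right _ _)) hζ2
  · intro u hu
    rcases (hmem u).1 hu with rfl | hu | hu
    · exact ⟨_, _, rfl⟩
    · exact cs_zero h1 hu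
    · exact cs_zero (hF (f ζ)).1 hu
  · intro β x y hx hy hxy
    rcases (hmem _).1 hx with ux | ux | ux <;> rcases (hmem _).1 hy with uy | uy | uy
    · rw [Fact.l.injEq] at ux uy; rw [ux.2, uy.2]
    · rw [Fact.l.injEq] at ux
      obtain ⟨rfl, rfl⟩ := ux
      exact absurd (hdp y uy) (by omega)
    · rw [Fact.l.injEq] at ux
      obtain ⟨rfl, rfl⟩ := ux
      exact absurd uy (hno y)
    · rw [Fact.l.injEq] at uy
      obtain ⟨rfl, rfl⟩ := uy
      exact absurd (hdp x ux) (by omega)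
    · exact h1.1.1.fl β x y ux uy hxy
    · exact h1.1.1.fl β x y ux (hnew β y uy (mem_ors ux)) hxy
    · rw [Fact.l.injEq] at uy
      obtain ⟨rfl, rfl⟩ := uy
      exact absurd ux (hno x)
    · exact h1.1.1.fl β x y (hnew β x ux (mem_ors uy)) uy hxy
    · exact (hF (f ζ)).1.1.1.fl β x y ux uy hxy
  · intro β x hx
    rcases (hmem _).1 hx with hx | hx | hx
    · rw [Fact.l.injEq] at hx
      obtain ⟨rfl, rfl⟩ := hx
      exact ⟨hα, hζ1⟩
    · exact h1.1.1.ll β x hx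
    · exact (hF (f ζ)).1.1.1.ll β x hx
  · exact fun u hu => (hmem u).2 (Or.inr (Or.inl hu))
  · exact fun u hu => (hmem u).2 (Or.inr (Or.inr hu))
  · exact (hmem _).2 (Or.inl rfl)

section
variable {σ τ : Ordinal.{0}} {E : Finset Nm} {R : Finset W} {N : ℕ} {h : W} {p p1 : W → Cd}
  {X : W → W}

open Classical in
theorem step (hστ : σ < τ) (d : Data σ τ E R N h p p1 X) (IH : HitAt σ) (g : W → W) :
    ∃ α, Lim α ∧ (∀ γ < α, g γ < α) ∧ ∃ q, Cs τ q ∧
      ∀ q', Cs τ q' → q ⊆ q' → ∀ γ < α, ∃ ξ, γ < X ξ ∧ X ξ < α ∧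
        ∃ r, Cs τ r ∧ q' ⊆ r ∧ p ξ ⊆ r ∧ Fact.l α (X ξ) ∈ r := by
  -- closure function
  let S : W → Set W := fun ξ => {g ξ, X ξ} ∪ ((ors (p ξ) : Finset W) : Set W)
  obtain ⟨G, hG⟩ := exists_boundfun S fun ξ =>
    ((countable_singleton _).insert _).union (Finset.countable_toSet _)
  obtain ⟨b0, hb0⟩ := exists_bound (s := ((insert h R : Finset W) : Set W))
    (Finset.countable_toSet _)
  have hb0R : ∀ x ∈ R, x < b0 := fun x hx => hb0 x (by simpa using Or.inr hx)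
  have hb0h : h < b0 := hb0 h (by simp)
  obtain ⟨α, hα, hcl, q0, hq0c, hq0⟩ := IH (fun ξ => (p1 ξ, X ξ))
    (fun ξ => ⟨d.cnd1 ξ, d.lt ξ⟩) (fun γ => max (G γ) b0)
  have hclG : ∀ γ < α, G γ < α := fun γ hγ => (le_max_left _ _).trans_lt (hcl γ hγ)
  have hb0α : b0 < α := by
    obtain ⟨γ, hγ⟩ := hα.1
    exact (le_max_right _ _).trans_lt (hcl γ hγ)
  have hXG : ∀ ξ γ, ξ ≤ γ → X ξ < G γ := fun ξ γ h => hG γ ξ h _ (Or.inl (Or.inr rfl))
  have ho : ∀ ξ < α, ∀ f ∈ p ξ, f.ord < α := fun ξ hξ f hf =>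
    (hG ξ ξ le_rfl _ (Or.inr (mem_ors hf))).trans (hclG ξ hξ)
  refine ⟨α, hα, fun γ hγ => (hG γ γ le_rfl _ (Or.inl (Or.inl rfl))).trans (hclG γ hγ), ?_⟩
  -- the master condition
  obtain ⟨ξ0, hξ01, hξ02, q1, hq1c, hq01, hpq1, -⟩ :=
    hq0 q0 hq0c subset_rfl (G b0) (hclG b0 hb0α)
  have hbξ0 : b0 < ξ0 := by
    by_contra h
    exact lt_asymm hξ01 (hXG ξ0 b0 (not_lt.1 h))
  have hξ0α : ξ0 < α := (d.lt ξ0).trans hξ02
  have hA : Closed (Bel σ) := closed_bel σ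
  have hu : Cnd (q1 ∪ p ξ0) := hq1c.1.union hq1c.2 (d.cnd ξ0).1 ((d.le1 ξ0).trans hpq1)
  let Sx : Cd := ((E.filter (fun ν => rho ν = σ)) ×ˢ Finset.range N).image
    (fun t => Fact.c true t.1 t.2 α)
  have hSx : ∀ f, f ∈ Sx ↔ ∃ ν ∈ E, rho ν = σ ∧ ∃ i < N, f = Fact.c true ν i α := by
    intro f
    constructor
    · intro h
      obtain ⟨t, ht, rfl⟩ := Finset.mem_image.1 h
      obtain ⟨h1, h2⟩ := Finset.mem_product.1 ht
      exact ⟨t.1, (Finset.mem_filter.1 h1).1, (Finset.mem_filter.1 h1).2, t.2,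
        Finset.mem_range.1 h2, rfl⟩
    · rintro ⟨ν, h1, h2, i, h3, rfl⟩
      exact Finset.mem_image.2 ⟨(ν, i), Finset.mem_product.2
        ⟨Finset.mem_filter.2 ⟨h1, h2⟩, Finset.mem_range.2 h3⟩, rfl⟩
  -- promises of top names in `q1 ∪ p ξ0` are below `α`
  have hsα : ∀ ν i e, ν ∈ E → rho ν = σ → Fact.s ν i e ∈ q1 ∪ p ξ0 → e < α := by
    intro ν i e h1 h2 h3
    rcases Finset.mem_union.1 h3 with h3 | h3
    · have : rho ν < σ := hq1c.2 _ h3
      exact absurd h2 this.ne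
    · exact ho ξ0 hξ0α _ h3
  set q : Cd := (q1 ∪ p ξ0) ∪ Sx with hq
  have hqmem : ∀ f, f ∈ q ↔ f ∈ q1 ∪ p ξ0 ∨ f ∈ Sx := fun f => Finset.mem_union
  have hqs : ∀ ν i e, Fact.s ν i e ∈ q → Fact.s ν i e ∈ q1 ∪ p ξ0 := by
    intro ν i e h1
    rcases (hqmem _).1 h1 with h1 | h1
    · exact h1
    · obtain ⟨_, _, _, _, _, h⟩ := (hSx _).1 h1
      exact absurd h (by simp)
  have hql : ∀ α x, Fact.l α x ∈ q → Fact.l α x ∈ q1 ∪ p ξ0 := by
    intro α x h1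
    rcases (hqmem _).1 h1 with h1 | h1
    · exact h1
    · obtain ⟨_, _, _, _, _, h⟩ := (hSx _).1 h1
      exact absurd h (by simp)
  have hqc : Cs τ q := by
    refine ⟨⟨⟨?_, ?_, ?_, ?_, ?_, ?_⟩, ?_⟩, ?_⟩
    · intro β x y hx hy
      exact hu.1.fl β x y (hql _ _ hx) (hql _ _ hy)
    · intro β x hx
      exact hu.1.ll β x (hql _ _ hx)
    · intro t ν i x hx
      rcases (hqmem _).1 hx with hx | hx
      · exact hu.1.lc t ν i x hx
      · obtain ⟨_, _, _, _, _, h⟩ := (hSx _).1 hx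
        rw [Fact.c.injEq] at h
        obtain ⟨rfl, rfl, rfl, rfl⟩ := h
        exact hα
    · intro ν i e hx
      exact hu.1.ls ν i e (hqs _ _ _ hx)
    · intro ν i e hs hc
      rcases (hqmem _).1 hc with hc | hc
      · exact hu.1.ne ν i e (hqs _ _ _ hs) hc
      · obtain ⟨μ, h1, h2, j, _, h⟩ := (hSx _).1 hc
        rw [Fact.c.injEq] at h
        obtain ⟨-, rfl, rfl, rfl⟩ := h
        exact lt_irrefl _ (hsα _ _ _ h1 h2 (hqs _ _ _ hs))
    · intro ν i e t x hs hc hxe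
      rcases (hqmem _).1 hc with hc | hc
      · exact (hu.1.con ν i e t x (hqs _ _ _ hs) hc hxe).mono Finset.subset_union_left
      · obtain ⟨μ, h1, h2, j, _, h⟩ := (hSx _).1 hc
        rw [Fact.c.injEq] at h
        obtain ⟨-, rfl, rfl, rfl⟩ := h
        exact absurd (hsα _ _ _ h1 h2 (hqs _ _ _ hs)) (lt_asymm hxe)
    · intro f hf
      rcases (hqmem _).1 hf with hf | hf
      · exact hu.2 f hf
      · obtain ⟨μ, h1, h2, i, _, rfl⟩ := (hSx _).1 hf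
        exact d.Ehg μ h1
    · intro f hf
      rcases (hqmem _).1 hf with hf | hf
      · rcases Finset.mem_union.1 hf with hf | hf
        · exact (hq1c.mono hστ.le).2 f hf
        · exact (d.cnd ξ0).2 f hf
      · obtain ⟨μ, h1, h2, i, _, rfl⟩ := (hSx _).1 hf
        exact lt_of_le_of_lt h2.le hστ
  refine ⟨q, hqc, ?_⟩
  intro q' hq'c hq'q γ hγ
  have hq1q' : q1 ⊆ q' := (Finset.subset_union_left.trans Finset.subset_union_left).trans hq'q
  have hpq' : p ξ0 ⊆ q' := (Finset.subset_union_right.trans Finset.subset_union_left).trans hq'q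
  -- the low part of `q'`
  have hq's : q1 ⊆ res (Bel σ) q' := sub_res hq1q' hq1c.2
  -- bound the rows of the promises above `α`
  have hT1 : ∃ q2, Cs σ q2 ∧ res (Bel σ) q' ⊆ q2 ∧ ∃ g < α, ∀ ν i e, ν ∈ E → rho ν = σ →
      Fact.s ν i e ∈ q' → i < N → α < e → ∀ y, g ≤ y → y < α → ∀ t r, Cs σ r → q2 ⊆ r →
      ¬ D r ν (true, e, y, t) true := by
    by_cases hE : ∃ ν ∈ E, rho ν = σ
    · obtain ⟨ν, hν, hνσ⟩ := hE
      let T : Finset W := ((prms ν q').filter (fun t => t.1 < N ∧ α < t.2)).image Prod.snd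
      obtain ⟨q2, h1, h2, g, hg, h3⟩ := bound_all (d.Ehg ν hν) hνσ.le hα T (by
        intro e he
        obtain ⟨t, ht, rfl⟩ := Finset.mem_image.1 he
        obtain ⟨h1, h2, h3⟩ := Finset.mem_filter.1 ht
        exact ⟨hq'c.1.1.ls _ _ _ (mem_prms.1 h1), h3⟩) (Cs.low hq'c.1 σ) (by
        intro e he
        obtain ⟨t, ht, rfl⟩ := Finset.mem_image.1 he
        obtain ⟨h1, h2, h3⟩ := Finset.mem_filter.1 ht
        have h4 : Fact.c true ν t.1 α ∈ q' := hq'q (Finset.mem_union_right _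
          ((hSx _).2 ⟨ν, hν, hνσ, t.1, h2, rfl⟩))
        obtain ⟨k, k1, k2⟩ := hq'c.1.1.con ν t.1 t.2 true α (mem_prms.1 h1) h4 h3
        exact ⟨k, k1, sub_res k2 fun f hf => (cond_in ν _ k hf).mono fun μ hμ =>
          lt_of_lt_of_le (rho_lt_of_sub hμ) hνσ.le⟩)
      refine ⟨q2, h1, h2, g, hg, ?_⟩
      intro μ i e hμ hμσ hs hi he
      have e1 : μ = ν := rho_inj (hμσ.trans hνσ.symm)
      subst e1
      exact h3 e (Finset.mem_image.2 ⟨(i, e), Finset.mem_filter.2 ⟨mem_prms.2 hs, hi, he⟩, rfl⟩)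
    · obtain ⟨γ, hγ⟩ := hα.1
      exact ⟨_, Cs.low hq'c.1 σ, subset_rfl, γ, hγ, fun ν i e h1 h2 => absurd ⟨ν, h1, h2⟩ hE⟩
  obtain ⟨q2, hq2c, hq2s, gs, hgs, hbd⟩ := hT1
  have hex : ∀ ν : Nm, ∃ ζ, ∀ ζ', ν ∉ E → ν ∈ nms (p ζ') → ζ' = ζ := by
    intro ν
    by_cases hh : ∃ ζ, ν ∉ E ∧ ν ∈ nms (p ζ)
    · obtain ⟨ζ, h4, h5⟩ := hh
      refine ⟨ζ, fun ζ' _ h6 => ?_⟩
      by_contra hne
      exact h4 (d.dis ζ ζ' (Ne.symm hne) ν h5 h6)
    · exact ⟨α, fun ζ' h5 h6 => absurd ⟨ζ', h5, h6⟩ hh⟩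
  choose e he using hex
  obtain ⟨γ1, hγ1, hγ1'⟩ := hα.bound (ors q' ∪ ((nms q').image e ∪ {gs}))
  have hγo : ∀ f ∈ q', f.ord < α → f.ord < γ1 := fun f hf h => hγ1' _
    (Finset.mem_union_left _ (mem_ors hf)) h
  have hγe : ∀ ν ∈ nms q', e ν < α → e ν < γ1 := fun ν hν h => hγ1' _
    (Finset.mem_union_right _ (Finset.mem_union_left _ (Finset.mem_image_of_mem _ hν))) h
  have hγg : gs < γ1 := hγ1' _
    (Finset.mem_union_right _ (Finset.mem_union_right _ (Finset.mem_singleton_self _))) hgs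
  obtain ⟨ξ, hξ1, hξ2, q3, hq3c, hq32, hq3p, hq3l⟩ :=
    hq0 q2 hq2c ((hq01.trans hq's).trans hq2s) (max γ (G γ1)) (max_lt hγ (hclG γ1 hγ1))
  have hξ2 : X ξ < α := hξ2
  have hγ1ξ : γ1 < ξ := by
    by_contra h
    exact absurd ((le_max_right γ (G γ1)).trans_lt hξ1) (lt_asymm (hXG ξ γ1 (not_lt.1 h)))
  have hξα : ξ < α := (d.lt ξ).trans hξ2
  -- decide the remaining statuses
  have hT2 : ∃ q4, Cs σ q4 ∧ q3 ⊆ q4 ∧ ∀ ν i e t x, ν ∈ E → rho ν = σ →
      Fact.s ν i e ∈ q' ∪ p ξ → Fact.c t ν i x ∈ q' ∪ p ξ → ∃ b, D q4 ν (true, e, x, t) b := by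
    by_cases hE : ∃ ν ∈ E, rho ν = σ
    · obtain ⟨ν, hν, hνσ⟩ := hE
      obtain ⟨q4, h1, h2, h3⟩ := decide_all (d.Ehg ν hν) hνσ.le
        ((ors (q' ∪ p ξ) ×ˢ ors (q' ∪ p ξ)) ×ˢ (Finset.univ : Finset Bool))
        (fun u => ((true, u.1.1, u.1.2, u.2) : Ix)) hq3c
      refine ⟨q4, h1, h2, ?_⟩
      intro μ i e t x hμ hμσ hs hc
      have e1 : μ = ν := rho_inj (hμσ.trans hνσ.symm)
      subst e1
      exact h3 ((e, x), t) (Finset.mem_product.2 ⟨Finset.mem_product.2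
        ⟨mem_ors hs, mem_ors hc⟩, Finset.mem_univ _⟩)
    · exact ⟨q3, hq3c, subset_rfl, fun ν i e t x h1 h2 => absurd ⟨ν, h1, h2⟩ hE⟩
  obtain ⟨q4, hq4c, hq34, hq4d⟩ := hT2
  -- facts of low rank
  have hlow1 : ∀ f ∈ q', f.In (Bel σ) → f ∈ q4 := fun f hf h =>
    hq34 (hq32 (hq2s (mem_res.2 ⟨hf, h⟩)))
  have hlow2 : ∀ f ∈ p ξ, f.In (Bel σ) → f ∈ q4 := fun f hf h =>
    hq34 (hq3p ((d.le1 ξ) (mem_res.2 ⟨hf, h⟩)))
  set r : Cd := q4 ∪ (q' ∪ p ξ) with hr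
  have hmem : ∀ f, f ∈ r ↔ f ∈ q4 ∨ f ∈ q' ∨ f ∈ p ξ := fun f => by
    rw [hr, Finset.mem_union, Finset.mem_union]
  have hlow : ∀ f ∈ r, f.In (Bel σ) → f ∈ q4 := by
    intro f hf h
    rcases (hmem f).1 hf with hf | hf | hf
    · exact hf
    · exact hlow1 f hf h
    · exact hlow2 f hf h
  have hhigh : ∀ f ∈ r, ¬ f.In (Bel σ) → f ∈ q' ∨ f ∈ p ξ := by
    intro f hf h
    rcases (hmem f).1 hf with hf | hf
    · exact absurd (hq4c.2 f hf) h
    · exact hf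
  have h4r : q4 ⊆ r := Finset.subset_union_left
  have hq'r : q' ⊆ r := fun f hf => (hmem f).2 (Or.inr (Or.inl hf))
  have hpr : p ξ ⊆ r := fun f hf => (hmem f).2 (Or.inr (Or.inr hf))
  -- common names of rank at least `σ`
  have htop : ∀ ν, ν ∈ nms q' → ν ∈ nms (p ξ) → ¬ rho ν < σ → ν ∈ E ∧ rho ν = σ := by
    intro ν h1 h2 h3
    have hνE : ν ∈ E := by
      by_contra h
      have h4 : ξ = e ν := he ν ξ h h2
      have h5 : e ν < γ1 := hγe ν h1 (h4 ▸ hξα)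
      rw [← h4] at h5
      exact lt_asymm hγ1ξ h5
    exact ⟨hνE, le_antisymm (d.Ele ν hνE) (not_lt.1 h3)⟩
  -- facts of `p ξ` with a top name and an ordinal in `R` are in `q'`
  have htr : ∀ f ∈ p ξ, f.Top E → f.ord ∈ R → f ∈ q' := fun f hf h1 h2 =>
    hpq' (d.tr ξ ξ0 f hf h2 h1)
  -- the two mixed cases
  have mix1 : ∀ ν i e t x, Fact.s ν i e ∈ q' → Fact.c t ν i x ∈ p ξ → Fact.c t ν i x ∉ q' →
      ¬ rho ν < σ → x ≤ e → x < e ∧ D r ν (true, e, x, t) false := by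
    intro ν i e t x hs hc hnc h3 hxe
    obtain ⟨hE, hνσ⟩ := htop ν (mem_nms_s hs) (mem_nms_c hc) h3
    have hxR : x ∉ R := fun h => hnc (htr _ hc hE h)
    have hξx : ξ < x := (d.ord ξ _ hc).resolve_left hxR
    have hxα : x < α := ho ξ hξα _ hc
    have hiN : i < N := d.idx ξ _ hc
    have heα : α ≤ e := by
      by_contra h
      have h6 : e < γ1 := hγo _ hs (not_le.1 h)
      exact absurd (hxe.trans_lt h6) (lt_asymm (hγ1ξ.trans hξx))
    have heα' : α < e := by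
      refine lt_of_le_of_ne heα fun h => ?_
      subst h
      exact hq'c.1.1.ne ν i _ hs (hq'q (Finset.mem_union_right _
        ((hSx _).2 ⟨ν, hE, hνσ, i, hiN, rfl⟩)))
    refine ⟨hxα.trans heα', ?_⟩
    obtain ⟨b, hb⟩ := hq4d ν i e t x hE hνσ (Finset.mem_union_left _ hs)
      (Finset.mem_union_right _ hc)
    cases b with
    | false => exact hb.mono h4r
    | true =>
      exact absurd hb (hbd ν i e hE hνσ hs hiN heα' x (hγg.trans (hγ1ξ.trans hξx)).le hxα t q4 hq4c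
        (hq32.trans hq34))
  have mix2 : ∀ ν i e t x, Fact.s ν i e ∈ p ξ → Fact.s ν i e ∉ q' → Fact.c t ν i x ∈ q' →
      ¬ rho ν < σ → x ≤ e → x < e ∧ D r ν (true, e, x, t) false := by
    intro ν i e t x hs hns hc h3 hxe
    obtain ⟨hE, hνσ⟩ := htop ν (mem_nms_c hc) (mem_nms_s hs) h3
    have heα : e < α := ho ξ hξα _ hs
    have hxγ : x < γ1 := hγo _ hc (hxe.trans_lt heα)
    have hxξ : x < ξ := hxγ.trans hγ1ξ
    have heR : e ∉ R := fun h => hns (htr _ hs hE h)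
    have hξe : ξ < e := (d.ord ξ _ hs).resolve_left heR
    refine ⟨hxξ.trans hξe, ?_⟩
    obtain ⟨b, hb⟩ := hq4d ν i e t x hE hνσ (Finset.mem_union_right _ hs)
      (Finset.mem_union_left _ hc)
    cases b with
    | false => exact hb.mono h4r
    | true =>
      exfalso
      rcases lt_or_ge x h with hxh | hxh
      · obtain ⟨e', g1, g2, g3⟩ := d.act2 ξ ξ0 ν i e hE hνσ hs heR
        have hξe' : ξ0 < e' := (d.ord ξ0 _ g1).resolve_left g2
        have hxe' : x < e' := (hxh.trans (hb0h.trans hbξ0)).trans hξe'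
        obtain ⟨k, k1, k2⟩ := hq'c.1.1.con ν i e' t x (hpq' g1) hc hxe'
        have h5 : D q4 ν (true, e', x, t) false := ⟨k, k1, fun f hf => hlow1 f (k2 hf)
          ((cond_in ν _ k hf).mono fun μ hμ => lt_of_lt_of_le (rho_lt_of_sub hμ) hνσ.le)⟩
        exact g3 q4 hq4c (hq3p.trans hq34) (hpq1.trans (hq's.trans (hq2s.trans (hq32.trans hq34))))
          x hxh t true hb h5
      · exact d.act1 ξ ν i e hE hνσ hs heR x hxh hxξ.le t q4 hq4c (hq3p.trans hq34) hb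
  have hrc : Cs τ r := by
    refine ⟨⟨⟨?_, ?_, ?_, ?_, ?_, ?_⟩, ?_⟩, ?_⟩
    · intro β x y hx hy
      exact hq4c.1.1.fl β x y (hlow _ hx trivial) (hlow _ hy trivial)
    · intro β x hx
      exact hq4c.1.1.ll β x (hlow _ hx trivial)
    · intro t ν i x hx
      rcases (hmem _).1 hx with hx | hx | hx
      · exact hq4c.1.1.lc t ν i x hx
      · exact hq'c.1.1.lc t ν i x hx
      · exact (d.cnd ξ).1.1.lc t ν i x hx
    · intro ν i e hx
      rcases (hmem _).1 hx with hx | hx | hx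
      · exact hq4c.1.1.ls ν i e hx
      · exact hq'c.1.1.ls ν i e hx
      · exact (d.cnd ξ).1.1.ls ν i e hx
    · intro ν i e hs hc
      by_cases hrk : rho ν < σ
      · exact hq4c.1.1.ne ν i e (hlow _ hs hrk) (hlow _ hc hrk)
      · by_cases hs' : Fact.s ν i e ∈ q'
        · by_cases hc' : Fact.c true ν i e ∈ q'
          · exact hq'c.1.1.ne ν i e hs' hc'
          · have hc2 := (hhigh _ hc hrk).resolve_left hc'
            exact lt_irrefl _ (mix1 ν i e true e hs' hc2 hc' hrk le_rfl).1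
        · have hs2 := (hhigh _ hs hrk).resolve_left hs'
          by_cases hc' : Fact.c true ν i e ∈ p ξ
          · exact (d.cnd ξ).1.1.ne ν i e hs2 hc'
          · have hc2 := (hhigh _ hc hrk).resolve_right hc'
            exact lt_irrefl _ (mix2 ν i e true e hs2 hs' hc2 hrk le_rfl).1
    · intro ν i e t x hs hc hxe
      by_cases hrk : rho ν < σ
      · exact (hq4c.1.1.con ν i e t x (hlow _ hs hrk) (hlow _ hc hrk) hxe).mono h4r
      · by_cases hs' : Fact.s ν i e ∈ q'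
        · by_cases hc' : Fact.c t ν i x ∈ q'
          · exact (hq'c.1.1.con ν i e t x hs' hc' hxe).mono hq'r
          · have hc2 := (hhigh _ hc hrk).resolve_left hc'
            exact (mix1 ν i e t x hs' hc2 hc' hrk hxe.le).2
        · have hs2 := (hhigh _ hs hrk).resolve_left hs'
          by_cases hc' : Fact.c t ν i x ∈ p ξ
          · exact ((d.cnd ξ).1.1.con ν i e t x hs2 hc' hxe).mono hpr
          · have hc2 := (hhigh _ hc hrk).resolve_right hc'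
            exact (mix2 ν i e t x hs2 hs' hc2 hrk hxe.le).2
    · intro f hf
      rcases (hmem _).1 hf with hf | hf | hf
      · exact hq4c.1.2 f hf
      · exact hq'c.1.2 f hf
      · exact (d.cnd ξ).1.2 f hf
    · intro f hf
      rcases (hmem _).1 hf with hf | hf | hf
      · exact (hq4c.mono hστ.le).2 f hf
      · exact hq'c.2 f hf
      · exact (d.cnd ξ).2 f hf
  exact ⟨ξ, (le_max_left _ _).trans_lt hξ1, hξ2, r, hrc, hq'r, hpr, h4r (hq34 hq3l)⟩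

end

/-- **The hitting theorem.** -/
theorem hit_all (τ : Ordinal.{0}) : HitAt τ := by
  induction τ using WellFoundedLT.induction with
  | ind τ ih =>
    rcases eq_or_ne τ 0 with h0 | h0
    · subst h0; exact hit_zero
    · intro F hF g
      obtain ⟨σ, hσ, E, R, N, h, p, p1, X, d, f, hf⟩ := prep (pos_iff_ne_zero.2 h0) ih F hF
      obtain ⟨α, h1, h2, q, h3, h5⟩ := step hσ d (ih σ hσ) g
      refine ⟨α, h1, h2, q, h3, fun q' g1 g3 γ hγ => ?_⟩
      obtain ⟨ξ, k1, k2, r, k3, k5, k6, k7⟩ := h5 q' g1 g3 γ hγ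
      rw [(hf ξ).2] at k1 k2 k7
      rw [(hf ξ).1] at k6
      exact ⟨f ξ, k1, k2, r, k3, k5, k6, k7⟩

end H2.PX
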