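import Pool.Agent.H9.PG.Good
import Pool.Agent.H2.PX.Step

/-!
# The forcing notion is good
-/

namespace H2.PX

/-- **The forcing notion.** -/
theorem good2 : Good2 PP LL := good2_of hit_all

end H2.PX
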