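import Pool.Agent.H2.LH.Logic
import Pool.Agent.H2.PX.Core

/-!
# First-order reduction inside a model of ZFC, for coherent sequences

With `μ = 2`, sequences for the four relations (`χ ≤ ω` in the case of `_χR`, or `Ω` containing all
limit ordinals below `κ`; `χ` and `Ω` arbitrary in the case of `R_χ`) are coherent sequences in the
sense of `CohSeq`.
-/

namespace H2.PX

open H85.Forcing H9.PF H2.LH

variable {M : Type*} {E : M → M → Prop}

theorem sup_unique (h : IsZFC E) {C a a' : M} (ha : IsSup E C a) (ha' : IsSup E C a') : a = a' := by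
  have key : ∀ {a a' : M}, IsSup E C a → IsSup E C a' → ∀ x, E x a → E x a' := by
    intro a a' ha ha' x hx
    obtain ⟨y, hy, hxy⟩ := ha.2.2 x hx
    rcases ha'.2.1 y hy with h1 | h1
    · exact ha'.1.1 y h1 x hxy
    · rwa [← h1]
  exact h.extensionality a a' fun x => ⟨key ha ha' x, key ha' ha x⟩

theorem endEq_of_sq (h : IsZFC E) {C D b : M} (hb : IsLim E b) (hC : IsSup E C b)
    (hR : Sq E C D) : EndEq E D C b := by
  obtain ⟨a, ha, h1⟩ := hR
  have e := sup_unique h ha hC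
  subst e
  obtain ⟨g, hg⟩ := hb.2.1
  exact ⟨g, hg, fun x _ => h1 x⟩

theorem endEq_of_sqStar (h : IsZFC E) {C D b : M} (hC : IsSup E C b)
    (hR : SqStar E C D) : EndEq E D C b := by
  obtain ⟨a, ha, g, hg, h1⟩ := hR
  have e := sup_unique h ha hC
  subst e
  exact ⟨g, hg, h1⟩

theorem endEq_of_rel (h : IsZFC E) {R : M → M → Prop} (hR : R = Sq E ∨ R = SqStar E)
    {C D b : M} (hb : IsLim E b) (hC : IsSup E C b) (hCD : R C D) : EndEq E D C b := by
  rcases hR with rfl | rfl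
  · exact endEq_of_sq h hb hC hCD
  · exact endEq_of_sqStar h hC hCD

theorem not_lim_of_succ (h : IsZFC E) {x y : M} (hxy : IsSucc E x y) : ¬ IsLim E y := by
  rintro ⟨⟨-, h2⟩, -, h3⟩
  have hx : E x y := (hxy x).2 (Or.inr rfl)
  obtain ⟨z, hz, hxz⟩ := h3 x hx
  rcases (hxy z).1 hz with h4 | h4
  · exact not_self h x (h2 x hx z h4 x hxz)
  · subst h4
    exact not_self h z hxz

/-- what the relation `Q` has to give for `(κ, 2, Q)`-sequences to be coherent in our sense -/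
def Coh (E : M → M → Prop) (kap : M) (Q : M → M → Prop) : Prop :=
  ∀ b, E b kap → IsLim E b → ∀ C D, IsSup E C b → Q C D → EndEq E D C b ∨ NoLimN E D

/-- `^Ω_χR` for `χ ≤ ω` -/
theorem coh_left (h : IsZFC E) {kap om : M} (hom : IsOrd E om) (hcf : NoFinCf E kap om)
    {R : M → M → Prop} (hR : R = Sq E ∨ R = SqStar E) {chi : M} (hchi : E chi om ∨ chi = om)
    (Om : M) : Coh E kap (OmegaRel E (LeftRel E R chi) Om) := by
  rintro b hb hbL C D hC ⟨h1 | ⟨a, ha, b', hb', f, hf⟩, -⟩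
  · exact Or.inl (endEq_of_rel h hR hbL hC h1)
  · exfalso
    have e := sup_unique h ha hC
    subst e
    refine hcf a hb hbL ⟨b', ?_, f, hf⟩
    rcases hchi with h2 | h2
    · exact hom.1 chi h2 b' hb'
    · rwa [← h2]

/-- `^ΩR_χ` -/
theorem coh_right (h : IsZFC E) {kap : M} {R : M → M → Prop} (hR : R = Sq E ∨ R = SqStar E)
    (chi Om : M) : Coh E kap (OmegaRel E (RightRel E R chi) Om) := by
  rintro b hb hbL C D hC ⟨h1 | ⟨-, h1⟩, -⟩
  · exact Or.inl (endEq_of_rel h hR hbL hC h1)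
  · right
    intro y hy
    obtain ⟨x, hx⟩ := h1 y hy
    exact not_lim_of_succ h hx

/-- every relation, if `Ω` contains the limit ordinals below `κ` -/
theorem coh_omega {kap : M} (Q : M → M → Prop) {Om : M}
    (hOm : ∀ a, E a kap → IsLim E a → E a Om) : Coh E kap (OmegaRel E Q Om) := by
  rintro b hb hbL C D hC ⟨-, h1⟩
  exact absurd (hOm b hb hbL) (h1 b hC)

theorem isLim_of_inAcc {kap C b : M} (hkap : IsOrd E kap) (hC : ∀ y, E y C → E y kap)
    (hb : InAcc E C b) : E b kap ∧ IsLim E b := by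
  obtain ⟨hb1, hb2, y, hyC, hby⟩ := hb
  have hyk : E y kap := hC y hyC
  have hbk : E b kap := hkap.1 y hyk b hby
  refine ⟨hbk, ⟨hkap.2 b hbk, fun w hw => hkap.2 w (hkap.1 b hbk w hw)⟩, hb1, fun w hw => ?_⟩
  obtain ⟨y, -, h1, h2⟩ := hb2 w hw
  exact ⟨y, h1, h2⟩

theorem cohSeq_of_isSeq {kap z o t c : M} (hkap : IsOrd E kap)
    (hz : IsZero E z) (ho : ∀ x, E x o ↔ x = z) (ht : ∀ x, E x t ↔ x = z ∨ x = o)
    {Q : M → M → Prop} (hQ : Coh E kap Q) (hc : IsSeq E kap t Q c) : CohSeq E kap c := by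
  intro a ha hal
  obtain ⟨h1, ⟨C, hC⟩, h3, h4⟩ := hc a ha hal
  refine ⟨C, fun D => ⟨fun hD => unique_of_cardLt hz ho ht h3 hD hC, fun e => by rwa [e]⟩, ?_⟩
  obtain ⟨hne, hsub, hsup, hna, hacc⟩ := h1 C hC
  have hCa : ∀ x, E x C → E x a := by
    intro x hx
    rcases hsup.2.1 x hx with h | h
    · exact h
    · subst h; exact absurd hx hna
  refine ⟨⟨hCa, fun x hx => ?_, hacc⟩, fun b hb => ?_⟩
  · obtain ⟨y, hy, hxy⟩ := hsup.2.2 x hx
    exact ⟨y, hy, hxy⟩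
  · obtain ⟨D, hD, hR⟩ := h4 C hC b hb
    obtain ⟨hbk, hbL⟩ := isLim_of_inAcc hkap hsub hb
    obtain ⟨-, -, hsupD, -, -⟩ := (hc b hbk hbL).1 D hD
    exact ⟨D, hD, hQ b hbk hbL D C hsupD hR⟩

/-- no `θ` between `ω` and `κ` is possible, whatever `ν` is -/
theorem not_pminus3 {kap om th z o t : M} (hkap : IsOrd E kap)
    (hz : IsZero E z) (ho : ∀ x, E x o ↔ x = z) (ht : ∀ x, E x t ↔ x = z ∨ x = o)
    (hc : Core3 E kap om) (hth1 : ∀ x, E x om → E x th) (hth2 : ∀ x, E x th → E x kap)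
    {Q : M → M → Prop} (hQ : Coh E kap Q) (nu : M) : ¬ PMinus E kap t Q th nu := by
  rintro ⟨c, hc1, hc2⟩
  have hL := cohSeq_of_isSeq hkap hz ho ht hQ hc1
  obtain ⟨b, d, hb, hd, hbd⟩ := hc c hL
  obtain ⟨a, ha, had, -, hC⟩ := hc2 b (fun i hi x hx => by
    obtain ⟨y, h1, h2, h3⟩ := hb i (hth2 i hi) x hx
    exact ⟨y, h1, h2, h3⟩) d hd
  obtain ⟨hal, i, hi, hia, h1⟩ := hbd a ha had
  obtain ⟨C, hCa⟩ := (hc1 a ha hal).2.1
  obtain ⟨x, hx, h2⟩ := h1 C hCa
  obtain ⟨-, -, h3⟩ := hC C hCa i (hth1 i hi) hia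
  obtain ⟨y, ⟨hy1, hy2, hy3⟩, hxy⟩ := h3 x hx
  exact h2 y hy1 hy3 hxy

end H2.PX
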