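import Pool.Agent.H2.LH.Forced

/-!
# `κ = ω₁` is forced to be the successor cardinal of `ω`
-/

open Set Ordinal

namespace H2.PX
open H85.Forcing H85.Forcing.BN H85.Forcing.RO H9.PF H2.LH

variable {P : Type} [Preorder P]

/-- the name of a function of the ground model -/
noncomputable def funN (g : W → W) : BN (RO P) :=
  BN.mk W (fun u => opair (ordN u) (ordN (g u))) (fun _ => ⊤)

theorem rel_funN (g : W → W) (u : W) (D : BN (RO P)) :
    rel (funN g) (ordN u) D = beq D (ordN (g u)) := by
  rw [rel, funN, mem_mk]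
  apply le_antisymm
  · refine iSup_le fun β => ?_
    rw [top_inf_eq]
    by_cases h : u = β
    · subst h; exact opair_inj_right le_rfl
    · have h1 := opair_inj_left
        (le_rfl : beq (opair (ordN u) D) (opair (ordN β) (ordN (g β))) ≤ _)
      rw [beq_ordN_of_ne h] at h1
      exact h1.trans bot_le
  · refine bex_intro u (le_inf le_top ?_)
    exact cong_opair brefl le_rfl

/-- every element of `W` is an image of `ω` -/
theorem exists_surj {ω' : W} (e : ℕ → W) (he : Function.Injective e) (heω : ∀ n, e n < ω')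
    (α : W) : ∃ g : W → W, ∀ j < α, ∃ u < ω', g u = j := by
  classical
  by_cases h0 : (Iio α).Nonempty
  · obtain ⟨s, hs⟩ := (countable_Iio α).exists_eq_range h0
    refine ⟨fun u => if h : ∃ n, e n = u then s h.choose else u, fun j hj => ?_⟩
    have h1 : j ∈ range s := by rw [← hs]; exact hj
    obtain ⟨n, hn⟩ := h1
    refine ⟨e n, heω n, ?_⟩
    have h : ∃ m, e m = e n := ⟨n, rfl⟩
    have h2 : h.choose = n := he h.choose_spec
    simp only
    rw [dif_pos h, h2, hn]
  · exact ⟨fun u => u, fun j hj => absurd ⟨j, hj⟩ h0⟩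

theorem forces_mapsOntoB {ω' α : W} {g : W → W} (hg : ∀ j < α, ∃ u < ω', g u = j) (p : P) :
    p ∈ (mapsOntoB (funN g) (ordN ω') (ordN α) : RO P) := by
  unfold mapsOntoB
  rw [forces_inf, forces_ball_ordN, forces_ball_ordN]
  constructor
  · intro u _
    rw [forces_iInf]
    intro v
    rw [forces_iInf]
    intro w
    rw [forces_himp]
    intro q hq hv
    rw [forces_himp]
    intro r hr hw
    rw [rel_funN] at hv hw
    exact congr_ext (fun x => beq v x) (congr_symm hw) (hv.down hr)
  · intro j hj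
    rw [forces_bex_ordN]
    intro q _
    obtain ⟨u, hu, h⟩ := hg j hj
    refine ⟨q, le_rfl, u, hu, ?_⟩
    rw [rel_funN, h, beq_refl]
    exact forces_top

theorem forces_isSuccCard (ccc : ∀ A : Set P, (∀ p ∈ A, ∀ q ∈ A, (∃ r, r ≤ p ∧ r ≤ q) → p = q) →
    A.Countable) {ω' : W} (e : ℕ → W) (he : Function.Injective e) (heω : ∀ n, e n < ω') (p : P) :
    p ∈ (isSuccCardB (ordN ω') (kapN W) : RO P) := by
  unfold isSuccCardB
  rw [forces_inf, forces_inf]
  refine ⟨isOrdB_kapN, ?_, ?_⟩
  · rw [forces_ball_kapN]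
    intro α
    obtain ⟨g, hg⟩ := exists_surj e he heω α
    exact forces_iSup_of (funN g) (forces_mapsOntoB hg p)
  · rw [forces_compl]
    intro q _ hq
    obtain ⟨q1, hq1, f, hf⟩ := forces_iSup.1 hq q le_rfl
    unfold mapsOntoB at hf
    rw [forces_inf, forces_ball_ordN, forces_ball_kapN] at hf
    obtain ⟨hf1, hf2⟩ := hf
    let φ : W → W → P → Prop := fun u v s => s ∈ (rel f (ordN u) (ordN v) : RO P) ∨
      s ∈ ((⨆ v : W, rel f (ordN u) (ordN v) : RO P))ᶜ
    have h1 : ∀ u : W, ∃ β : W, ∀ r ≤ q1, ∃ s ≤ r, ∃ v < β, φ u v s := by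
      intro u
      refine ccc_bound ccc q1 (φ u) ?_ ?_
      · rintro x a b hb (h | h)
        · exact Or.inl (h.down hb)
        · exact Or.inr (h.down hb)
      · intro r _
        obtain ⟨s, hs, h⟩ := exists_decide (⨆ v : W, rel f (ordN u) (ordN v) : RO P) r
        rcases h with h | h
        · obtain ⟨t, ht, v, hv⟩ := forces_iSup.1 h s le_rfl
          exact ⟨t, ht.trans hs, v, Or.inl hv⟩
        · exact ⟨s, hs, u, Or.inr h⟩
    choose β hβ using h1
    have hct : (β '' Iio ω').Countable := (countable_Iio ω').image β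
    obtain ⟨b, hb⟩ := exists_bound hct
    have h2 := hf2 b
    rw [forces_bex_ordN] at h2
    obtain ⟨r, hr, u, hu, h3⟩ := h2 q1 le_rfl
    obtain ⟨s, hs, v, hv, h4⟩ := hβ u r hr
    have hvb : v < b := hv.trans (hb _ ⟨u, hu, rfl⟩)
    rcases h4 with h4 | h4
    · have h5 := forces_iInf.1 (forces_iInf.1 ((hf1 u hu).down (hs.trans hr)) (ordN b)) (ordN v)
      have h6 := forces_himp.1 (forces_himp.1 h5 s le_rfl (h3.down hs)) s le_rfl h4
      exact hvb.ne' (forces_beq_ordN.1 h6)
    · exact not_both (forces_iSup_of b (h3.down hs)) h4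

end H2.PX
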