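import Pool.Agent.H2.PX.Forced3
import Pool.Agent.H2.PX.Logic2
import Pool.Agent.H2.PX.FinCf
import Pool.Agent.H2.PX.SuccCard
import Pool.Agent.H2.PX.Good

/-!
# From `Good2 P L` to a model of ZFC
-/

namespace H2.PX
open H85.Forcing H85.Forcing.BN H85.Forcing.RO H9.PF H2.LH

/-- ladder systems give rows without accumulation points -/
theorem rows_of_ladF {P : Type} [Preorder P] {f : W → W → RO P} (hf : LadF f) :
    Rows (fun e y t => if t then ⊥ else f e y) (fun e y t => if t then ⊥ else f e y) := by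
  refine ⟨?_, ?_, ?_⟩
  · intro e δ he hδ hδe p _
    obtain ⟨q, hq, w, hw⟩ := hf e he δ hδe p
    obtain ⟨h, hh, h1⟩ := hδ.bound w
    refine ⟨q, hq, h, hh, fun y hy1 hy2 t => ?_⟩
    cases t with
    | true =>
      rw [forces_compl]
      exact fun s _ hs => not_forces_bot (by simpa using hs)
    | false =>
      have h2 : y ∉ w := fun h3 => absurd (h1 y h3 hy2) (not_lt.2 hy1)
      simpa using (hw y hy2).2 h2
  · intro e δ _ _ _ p hp
    exact absurd (show p ∈ (⊥ : RO P) by simpa using hp) not_forces_bot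
  · intro X hX _ p
    obtain ⟨δ, hδ, -, h1⟩ := exists_limit_of_unb X hX (Classical.arbitrary W)
    refine ⟨p, le_rfl, δ, hδ, fun h hh q' _ => ?_⟩
    obtain ⟨x, hx, hx1, hx2⟩ := h1 h hh
    refine ⟨q', le_rfl, x, hx, hx1, hx2, ?_⟩
    rw [forces_compl]
    exact fun s _ hs => not_forces_bot (by simpa using hs)

theorem Good2.toGood {P : Type} [Preorder P] {L : W → W → RO P} (G : Good2 P L) : Good P L where
  nonempty := G.nonempty
  ccc := G.ccc
  L_lt := G.L_lt
  L_cof := G.L_cof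
  L_fin := G.L_fin
  hit := G.hit
  kill := fun f hf => by
    obtain ⟨b, h1, -, h3⟩ := G.kill _ _ (rows_of_ladF hf)
    refine ⟨b, h1, fun α hα p => ?_⟩
    obtain ⟨q, hq, i, h4⟩ := h3 α hα p
    obtain ⟨γ, hγ⟩ := hα.1
    exact ⟨q, hq, i, γ, hγ, fun x _ hx => by simpa using h4 x hx⟩

theorem model3 {P : Type} [Preorder P] {L : W → W → RO P} (G : Good2 P L) :
    ∃ (M : Type 1) (E : M → M → Prop), IsZFC E ∧ ∃ kap om one two : M,
      IsUncReg E kap ∧ IsSuccCard E om kap ∧ IsOm E om ∧ IsOne E one ∧ IsTwo E two ∧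
      IsCard E two ∧ NoFinCf E kap om ∧
      (∀ R : M → M → Prop, PMinus E kap two R one two) ∧
      ∀ th : M, (∀ x, E x om → E x th) → (∀ x, E x th → E x kap) →
      ∀ Q : M → M → Prop, Coh E kap Q → ∀ nu, ¬ PMinus E kap two Q th nu := by
  have hne : Nonempty P := G.nonempty
  obtain ⟨U⟩ := exists_ult (RO P)
  have hT : ∀ {a : RO P}, (∀ p, p ∈ a) → U.T a := fun h => by
    rw [eq_top_iff_forces.2 h]; exact U.top
  have hZ : IsZFC (ME U) := isZFC U
  obtain ⟨ω', hω, hω2⟩ := exists_om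
  obtain ⟨e, he, heL⟩ := exists_nat
  obtain ⟨z, o, t, hz, ho, ht⟩ := exists_two hZ
  have hU : IsUncReg (ME U) (cl U (kapN W)) :=
    (isUncReg_iff U _).2 (hT (forces_isUncReg G.ccc))
  have hO : IsOm (ME U) (cl U (ordN ω')) := (isOm_iff U _).2 (hT (forces_isOm ⟨hω, hω2⟩))
  have hS : IsSuccCard (ME U) (cl U (ordN ω')) (cl U (kapN W)) :=
    (isSuccCard_iff U _ _).2 (hT (forces_isSuccCard G.ccc e he (heL ω' hω)))
  have h1 : Core1 (ME U) (cl U (kapN W)) := (core1_iff U _).2 (hT (forces_core1 G.toGood))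
  have h2 : Core3 (ME U) (cl U (kapN W)) (cl U (ordN ω')) :=
    (core3_iff U _ _).2 (hT (forces_core3 G e he (heL ω' hω) heL))
  have h3 : NoFinCf (ME U) (cl U (kapN W)) (cl U (ordN ω')) :=
    (noFinCf_iff U _ _).2 (hT (forces_noFinCf ⟨hω, hω2⟩))
  refine ⟨MQ U, ME U, hZ, cl U (kapN W), cl U (ordN ω'), o, t, hU, hS, hO, (isOne_iff hZ hz).2 ho,
    (isTwo_iff hZ hz ho).2 ht, isCard_two hz ho ht, h3, fun R => ?_, fun th ht1 ht2 Q hQ nu => ?_⟩
  · exact pminus_one hZ hU.1 hz ho ht h1 _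
  · exact not_pminus3 hU.1 hz ho ht h2 ht1 ht2 hQ nu

end H2.PX
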