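import Pool.Agent.H2.PX.Model3
import Pool.Agent.H23.PQ.PXD

/-!
# The model, with the clause for all `Ω` which contain a club
-/

namespace H2.PX
open H85.Forcing H85.Forcing.BN H85.Forcing.RO H9.PF H2.LH

theorem not_pminusD' {M : Type*} {E : M → M → Prop} {kap om th z o t D Om : M}
    (hkap : IsOrd E kap)
    (hz : IsZero E z) (ho : ∀ x, E x o ↔ x = z) (ht : ∀ x, E x t ↔ x = z ∨ x = o)
    (hc : H23.PQ.Core2D E kap om) (hth1 : ∀ x, E x om → E x th) (hth2 : ∀ x, E x th → E x kap)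
    (hDc : IsClub E kap D) (hD : ∀ x, E x D → E x Om)
    (R : M → M → Prop) (nu : M) : ¬ PMinus E kap t (OmegaRel E R Om) th nu := by
  rintro ⟨c, hc1, hc2⟩
  have hL := H23.PQ.ladSeqD_of_isSeq hkap hz ho ht hD R hc1
  obtain ⟨b, d, hb, hd, hbd⟩ := hc D hDc c hL
  obtain ⟨a, ha, had, -, hC⟩ := hc2 b (fun i hi x hx => by
    obtain ⟨y, h1, h2, h3⟩ := hb i (hth2 i hi) x hx
    exact ⟨y, h1, h2, h3⟩) d hd
  obtain ⟨hal, i, hi, hia, h1⟩ := hbd a ha had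
  obtain ⟨C, hCa⟩ := (hc1 a ha hal).2.1
  obtain ⟨x, hx, h2⟩ := h1 C hCa
  obtain ⟨-, -, h3⟩ := hC C hCa i (hth1 i hi) hia
  obtain ⟨y, ⟨hy1, hy2, hy3⟩, hxy⟩ := h3 x hx
  exact h2 y hy1.1 hy3 hxy

theorem model4 :
    ∃ (M : Type 1) (E : M → M → Prop), IsZFC E ∧ ∃ kap om one two : M,
      IsUncReg E kap ∧ IsSuccCard E om kap ∧ IsOm E om ∧ IsOne E one ∧ IsTwo E two ∧
      IsCard E two ∧ NoFinCf E kap om ∧
      (∀ R : M → M → Prop, PMinus E kap two R one two) ∧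
      ∀ th : M, (∀ x, E x om → E x th) → (∀ x, E x th → E x kap) →
      (∀ Q : M → M → Prop, Coh E kap Q → ∀ nu, ¬ PMinus E kap two Q th nu) ∧
      (∀ D Om : M, IsClub E kap D → (∀ x, E x D → E x Om) →
        ∀ Q : M → M → Prop, ∀ nu, ¬ PMinus E kap two (OmegaRel E Q Om) th nu) := by
  have G := good2
  have hne : Nonempty PP := G.nonempty
  obtain ⟨U⟩ := exists_ult (RO PP)
  have hT : ∀ {a : RO PP}, (∀ p, p ∈ a) → U.T a := fun h => by
    rw [eq_top_iff_forces.2 h]; exact U.top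
  have hZ : IsZFC (ME U) := isZFC U
  obtain ⟨ω', hω, hω2⟩ := exists_om
  obtain ⟨e, he, heL⟩ := exists_nat
  obtain ⟨z, o, t, hz, ho, ht⟩ := exists_two hZ
  have hU : IsUncReg (ME U) (cl U (kapN W)) :=
    (isUncReg_iff U _).2 (hT (forces_isUncReg G.ccc))
  have hO : IsOm (ME U) (cl U (ordN ω')) := (isOm_iff U _).2 (hT (forces_isOm ⟨hω, hω2⟩))
  have hS : IsSuccCard (ME U) (cl U (ordN ω')) (cl U (kapN W)) :=
    (isSuccCard_iff U _ _).2 (hT (forces_isSuccCard G.ccc e he (heL ω' hω)))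
  have h1 : Core1 (ME U) (cl U (kapN W)) := (core1_iff U _).2 (hT (forces_core1 G.toGood))
  have h2 : Core3 (ME U) (cl U (kapN W)) (cl U (ordN ω')) :=
    (core3_iff U _ _).2 (hT (forces_core3 G e he (heL ω' hω) heL))
  have h3 : NoFinCf (ME U) (cl U (kapN W)) (cl U (ordN ω')) :=
    (noFinCf_iff U _ _).2 (hT (forces_noFinCf ⟨hω, hω2⟩))
  have h4 : H23.PQ.Core2D (ME U) (cl U (kapN W)) (cl U (ordN ω')) :=
    (H23.PQ.core2D_iff U _ _).2 (hT (H23.PQ.forces_core2D_PP e he (heL ω' hω) heL))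
  refine ⟨MQ U, ME U, hZ, cl U (kapN W), cl U (ordN ω'), o, t, hU, hS, hO, (isOne_iff hZ hz).2 ho,
    (isTwo_iff hZ hz ho).2 ht, isCard_two hz ho ht, h3, fun R => ?_, fun th ht1 ht2 =>
    ⟨fun Q hQ nu => ?_, fun D Om hD hDO Q nu => ?_⟩⟩
  · exact pminus_one hZ hU.1 hz ho ht h1 _
  · exact not_pminus3 hU.1 hz ho ht h2 ht1 ht2 hQ nu
  · exact not_pminusD' hU.1 hz ho ht h4 ht1 ht2 hD hDO Q nu

end H2.PX
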