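import Pool.Agent.H9.PF.Basic

/-!
# Hereditary names of coherent sequences, and finite consistent conditions

A name carries, for every status `j = (u, e, y, t)`, countably many finite conditions, each with a
truth value. `u = true`: the main row `e`; `u = false`: the reference row `e`; `t = false`: is `y`
in the set `N_e` (non-accumulation points)? `t = true`: is `y` in the set `Y_e` (accumulation
points)? A condition is a finite consistent set of facts; the order is reverse inclusion.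
-/

open Set

namespace H2.PX
open H9.PF

/-- indices of statuses -/
abbrev Ix : Type := Bool × W × W × Bool

/-- Hereditary names. -/
inductive Nm : Type
  | mk (dl : Ix → ℕ → Finset (W × W)) (v : Ix → ℕ → Bool) (m : Ix → ℕ → ℕ)
      (kd : (j : Ix) → (k : ℕ) → Fin (m j k) → (Bool × ℕ × W) ⊕ (ℕ × W))
      (sub : (j : Ix) → (k : ℕ) → Fin (m j k) → Nm) : Nm

/-- Atomic pieces of conditions: `l α x` puts `x` into the Cohen ladder at `α`; `c false ν i x`
puts `x` into the set `B_i` of the coordinate `ν`; `c true ν i x` puts `x` into the set `A_i` of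
the coordinate `ν`; `s ν i e` promises that `B_i` is disjoint from `N_e` and that `A_i` is disjoint
from `Y_e ∪ {e}`. -/
inductive Fact : Type
  | l (α x : W)
  | c (t : Bool) (ν : Nm) (i : ℕ) (x : W)
  | s (ν : Nm) (i : ℕ) (e : W)

noncomputable instance : DecidableEq Fact := Classical.decEq _

noncomputable instance : DecidableEq Nm := Classical.decEq _

/-- finite sets of facts -/
abbrev Cd : Type := Finset Fact

def mkFact : (Bool × ℕ × W) ⊕ (ℕ × W) → Nm → Fact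
  | .inl (t, i, x), ν => .c t ν i x
  | .inr (i, e), ν => .s ν i e

namespace Nm

def v : Nm → Ix → ℕ → Bool
  | mk _ v _ _ _ => v

noncomputable def cond : Nm → Ix → ℕ → Cd
  | mk dl _ _ kd sub, j, k =>
    ((dl j k).image fun t => Fact.l t.1 t.2) ∪
      Finset.univ.image fun n => mkFact (kd j k n) (sub j k n)

end Nm

/-- `μ` is an immediate subname of `ν` -/
def Sub (μ : Nm) : Nm → Prop
  | .mk _ _ _ _ sub => ∃ j k n, sub j k n = μ

theorem wf_sub : WellFounded Sub := by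
  refine ⟨fun ν => ?_⟩
  induction ν with
  | mk dl v m kd sub ih =>
    constructor
    rintro μ ⟨j, k, n, rfl⟩
    exact ih j k n

instance : IsWellFounded Nm Sub := ⟨wf_sub⟩

/-- the name in a fact belongs to `A` -/
def Fact.In (A : Nm → Prop) : Fact → Prop
  | .l _ _ => True
  | .c _ ν _ _ => A ν
  | .s ν _ _ => A ν

theorem Fact.In.mono {A B : Nm → Prop} (h : ∀ ν, A ν → B ν) {f : Fact} (hf : f.In A) : f.In B := by
  cases f with
  | l => trivial
  | c => exact h _ hf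
  | s => exact h _ hf

theorem cond_in (ν : Nm) (j : Ix) (k : ℕ) {f : Fact} (hf : f ∈ ν.cond j k) :
    f.In (fun μ => Sub μ ν) := by
  cases ν with
  | mk dl v m kd sub =>
    rcases Finset.mem_union.1 hf with h | h
    · obtain ⟨t, -, rfl⟩ := Finset.mem_image.1 h
      trivial
    · obtain ⟨n, -, rfl⟩ := Finset.mem_image.1 h
      rcases h1 : kd j k n with ⟨t, i, x⟩ | ⟨i, e⟩
      · exact ⟨j, k, n, rfl⟩
      · exact ⟨j, k, n, rfl⟩

/-- every family of finite conditions and truth values comes from a name -/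
theorem exists_name (c : Ix → ℕ → Cd) (v : Ix → ℕ → Bool) :
    ∃ ν : Nm, (∀ j k, ν.cond j k = c j k) ∧ (∀ j k, ν.v j k = v j k) ∧
      ∀ μ, Sub μ ν → ∃ j k, ∃ f ∈ c j k, ¬ f.In (fun ρ => ρ ≠ μ) := by
  have h : ∀ c : Cd, ∃ (dl : Finset (W × W)) (m : ℕ) (kd : Fin m → (Bool × ℕ × W) ⊕ (ℕ × W))
      (sub : Fin m → Nm), ((dl.image fun t => Fact.l t.1 t.2) ∪
        Finset.univ.image fun n => mkFact (kd n) (sub n)) = c ∧
        ∀ n, ∃ f ∈ c, ¬ f.In (fun ρ => ρ ≠ sub n) := by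
    intro c
    induction c using Finset.induction_on with
    | empty => exact ⟨∅, 0, Fin.elim0, Fin.elim0, by simp, fun j => j.elim0⟩
    | insert f c _ ih =>
      obtain ⟨dl, m, kd, sub, h, h'⟩ := ih
      have aux : ∀ (kk : (Bool × ℕ × W) ⊕ (ℕ × W)) (ν : Nm), mkFact kk ν = f →
          (¬ f.In (fun ρ => ρ ≠ ν)) →
          ∃ (dl : Finset (W × W)) (m : ℕ) (kd : Fin m → (Bool × ℕ × W) ⊕ (ℕ × W))
            (sub : Fin m → Nm), ((dl.image fun t => Fact.l t.1 t.2) ∪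
            Finset.univ.image fun n => mkFact (kd n) (sub n)) = insert f c ∧
            ∀ n, ∃ g ∈ insert f c, ¬ g.In (fun ρ => ρ ≠ sub n) := by
        intro kk ν e1 e2
        refine ⟨dl, m + 1, Fin.cons kk kd, Fin.cons ν sub, ?_, ?_⟩
        · ext g
          rw [← h]
          simp only [Finset.mem_union, Finset.mem_image, Finset.mem_insert, Finset.mem_univ,
            true_and, Fin.exists_fin_succ, Fin.cons_zero, Fin.cons_succ, e1]
          rw [@eq_comm _ g f]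
          exact or_left_comm
        · intro j
          refine Fin.cases ?_ (fun j => ?_) j
          · exact ⟨f, Finset.mem_insert_self _ _, by simpa using e2⟩
          · obtain ⟨g, hg, h2⟩ := h' j
            exact ⟨g, Finset.mem_insert_of_mem hg, by simpa using h2⟩
      cases f with
      | l α x =>
        refine ⟨insert (α, x) dl, m, kd, sub, ?_, fun j => ?_⟩
        · rw [Finset.image_insert, Finset.insert_union, h]
        · obtain ⟨g, hg, h2⟩ := h' j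
          exact ⟨g, Finset.mem_insert_of_mem hg, h2⟩
      | c t ν i x => exact aux (.inl (t, i, x)) ν rfl (fun h => h rfl)
      | s ν i e => exact aux (.inr (i, e)) ν rfl (fun h => h rfl)
  choose dl m kd sub h1 h2 using h
  refine ⟨.mk (fun j k => dl (c j k)) v (fun j k => m (c j k))
    (fun j k => kd (c j k)) (fun j k => sub (c j k)), fun j k => h1 _, fun _ _ => rfl, ?_⟩
  rintro μ ⟨j, k, n, rfl⟩
  obtain ⟨f, hf, h3⟩ := h2 (c j k) n
  exact ⟨j, k, f, hf, h3⟩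

/-! ### restriction -/

/-- sets of names closed under subnames -/
def Closed (A : Nm → Prop) : Prop := ∀ ν μ, A ν → Sub μ ν → A μ

open Classical in
/-- restriction of a condition to the coordinates in `A` -/
noncomputable def res (A : Nm → Prop) (p : Cd) : Cd := p.filter (fun f => f.In A)

theorem mem_res {A : Nm → Prop} {p : Cd} {f : Fact} : f ∈ res A p ↔ f ∈ p ∧ f.In A := by
  classical
  unfold res
  rw [Finset.mem_filter]

theorem res_sub (A : Nm → Prop) (p : Cd) : res A p ⊆ p := fun _ h => (mem_res.1 h).1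

theorem res_in {A : Nm → Prop} {p : Cd} : ∀ f ∈ res A p, f.In A := fun _ h => (mem_res.1 h).2

theorem res_eq {A : Nm → Prop} {p : Cd} (h : ∀ f ∈ p, f.In A) : res A p = p := by
  ext f
  rw [mem_res]
  exact ⟨fun h => h.1, fun hf => ⟨hf, h f hf⟩⟩

theorem sub_res {A : Nm → Prop} {p q : Cd} (h : p ⊆ q) (hp : ∀ f ∈ p, f.In A) : p ⊆ res A q :=
  fun f hf => mem_res.2 ⟨h hf, hp f hf⟩

theorem res_mono (A : Nm → Prop) {p q : Cd} (h : p ⊆ q) : res A p ⊆ res A q :=
  fun _ hf => mem_res.2 ⟨h (mem_res.1 hf).1, (mem_res.1 hf).2⟩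

/-! ### decisions -/

/-- `q` contains a condition which, according to the name `ν`, decides that the status `j` has
the value `b` -/
def D (q : Cd) (ν : Nm) (j : Ix) (b : Bool) : Prop := ∃ k, ν.v j k = b ∧ ν.cond j k ⊆ q

theorem D.mono {q r : Cd} (h : q ⊆ r) {ν : Nm} {j : Ix} {b : Bool} (hd : D q ν j b) : D r ν j b := by
  obtain ⟨k, h1, h2⟩ := hd
  exact ⟨k, h1, h2.trans h⟩

theorem D.res {A : Nm → Prop} (hA : Closed A) {ν : Nm} (hν : A ν) {q : Cd} {j : Ix} {b : Bool}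
    (hd : D q ν j b) : D (res A q) ν j b := by
  obtain ⟨k, h1, h2⟩ := hd
  exact ⟨k, h1, sub_res h2 fun f hf => (cond_in ν j k hf).mono fun μ hμ => hA ν μ hν hμ⟩

/-! ### conditions -/

/-- consistency of the finite information -/
structure Ok (p : Cd) : Prop where
  fl : ∀ α x y, Fact.l α x ∈ p → Fact.l α y ∈ p → dp α x = dp α y → x = y
  ll : ∀ α x, Fact.l α x ∈ p → Lim α ∧ x < α
  lc : ∀ t ν i x, Fact.c t ν i x ∈ p → Lim x
  ls : ∀ ν i e, Fact.s ν i e ∈ p → Lim e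
  ne : ∀ ν i e, Fact.s ν i e ∈ p → Fact.c true ν i e ∉ p
  con : ∀ ν i e t x, Fact.s ν i e ∈ p → Fact.c t ν i x ∈ p → x < e → D p ν (true, e, x, t) false

theorem Ok.res {A : Nm → Prop} (hA : Closed A) {p : Cd} (h : Ok p) : Ok (res A p) where
  fl α x y h1 h2 := h.fl α x y (res_sub _ _ h1) (res_sub _ _ h2)
  ll α x h1 := h.ll α x (res_sub _ _ h1)
  lc t ν i x h1 := h.lc t ν i x (res_sub _ _ h1)
  ls ν i e h1 := h.ls ν i e (res_sub _ _ h1)
  ne ν i e h1 h2 := h.ne ν i e (res_sub _ _ h1) (res_sub _ _ h2)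
  con ν i e t x h1 h2 h3 :=
    (h.con ν i e t x (res_sub _ _ h1) (res_sub _ _ h2) h3).res hA (mem_res.1 h1).2

/-- amalgamation of a condition with an extension of its restriction -/
theorem Ok.union {A : Nm → Prop} {r p : Cd} (hr : Ok r) (hA : ∀ f ∈ r, f.In A) (hp : Ok p)
    (h : PX.res A p ⊆ r) : Ok (r ∪ p) := by
  have key : ∀ f ∈ r ∪ p, f.In A → f ∈ r := fun f hf h1 =>
    (Finset.mem_union.1 hf).elim id fun h2 => h (mem_res.2 ⟨h2, h1⟩)
  have key2 : ∀ f ∈ r ∪ p, ¬ f.In A → f ∈ p := fun f hf h1 =>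
    (Finset.mem_union.1 hf).elim (fun h2 => absurd (hA f h2) h1) id
  refine ⟨?_, ?_, ?_, ?_, ?_, ?_⟩
  · intro α x y h1 h2
    exact hr.fl α x y (key _ h1 trivial) (key _ h2 trivial)
  · intro α x h1
    exact hr.ll α x (key _ h1 trivial)
  · intro t ν i x h1
    exact (Finset.mem_union.1 h1).elim (hr.lc t ν i x) (hp.lc t ν i x)
  · intro ν i e h1
    exact (Finset.mem_union.1 h1).elim (hr.ls ν i e) (hp.ls ν i e)
  · intro ν i e h1 h2
    by_cases hν : A ν
    · exact hr.ne ν i e (key _ h1 hν) (key _ h2 hν)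
    · exact hp.ne ν i e (key2 _ h1 hν) (key2 _ h2 hν)
  · intro ν i e t x h1 h2 h3
    by_cases hν : A ν
    · exact (hr.con ν i e t x (key _ h1 hν) (key _ h2 hν) h3).mono Finset.subset_union_left
    · exact (hp.con ν i e t x (key2 _ h1 hν) (key2 _ h2 hν) h3).mono Finset.subset_union_right

/-- proper subnames -/
def tc (ν μ : Nm) : Prop := Relation.TransGen Sub μ ν

theorem closed_tc (ν : Nm) : Closed (tc ν) := fun _ _ h h' => Relation.TransGen.head h' h

theorem tc_of_sub {μ ν : Nm} (h : Sub μ ν) : tc ν μ := Relation.TransGen.single h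

theorem D.res_tc {ν : Nm} {q : Cd} {j : Ix} {b : Bool} (hd : D q ν j b) :
    D (PX.res (tc ν) q) ν j b := by
  obtain ⟨k, h1, h2⟩ := hd
  exact ⟨k, h1, sub_res h2 fun f hf => (cond_in ν j k hf).mono fun μ hμ => tc_of_sub hμ⟩

/-- conditions with names in `A` -/
def Cn (A : Nm → Prop) (q : Cd) : Prop := Ok q ∧ ∀ f ∈ q, f.In A

/-- good names: in the forcing notion of the conditions with names in `tc ν`, all statuses are
decided densely (`g0`) and consistently (`g1`); if `δ ∉ Y_e`, then `N_e ∪ Y_e` is bounded below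
`δ` (`g2`); if `δ ∈ Y_e`, then the main row `e` agrees on a final part of `δ` with the reference row
`δ` (`g3`); no unbounded `X` (of limits) in the ground model is such that for every limit `δ` of
`X` the reference set `Y_δ` contains a final part of `X ∩ δ` (`g4`). -/
structure Gd (ν : Nm) : Prop where
  g0 : ∀ j q, Cn (tc ν) q → ∃ q', Cn (tc ν) q' ∧ q ⊆ q' ∧ ∃ b, D q' ν j b
  g1 : ∀ j q, Cn (tc ν) q → D q ν j true → D q ν j false → False
  g2 : ∀ e δ, Lim e → Lim δ → δ < e → ∀ q, Cn (tc ν) q → D q ν (true, e, δ, true) false →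
    ∃ q', Cn (tc ν) q' ∧ q ⊆ q' ∧ ∃ g < δ, ∀ y, g ≤ y → y < δ → ∀ t r, Cn (tc ν) r → q' ⊆ r →
      ¬ D r ν (true, e, y, t) true
  g3 : ∀ e δ, Lim e → Lim δ → δ < e → ∀ q, Cn (tc ν) q → D q ν (true, e, δ, true) true →
    ∃ q', Cn (tc ν) q' ∧ q ⊆ q' ∧ ∃ g < δ, ∀ y, g ≤ y → y < δ → ∀ t b r, Cn (tc ν) r → q' ⊆ r →
      D r ν (true, e, y, t) b → D r ν (false, δ, y, t) (!b) → False
  g4 : ∀ X : Set W, Unb X → (∀ x ∈ X, Lim x) → ∀ q, Cn (tc ν) q → ∃ q', Cn (tc ν) q' ∧ q ⊆ q' ∧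
    ∃ δ, Lim δ ∧ ∀ g < δ, ∀ r, Cn (tc ν) r → q' ⊆ r → ∃ r', Cn (tc ν) r' ∧ r ⊆ r' ∧
      ∃ x ∈ X, g < x ∧ x < δ ∧ D r' ν (false, δ, x, true) false

/-- hereditarily good names -/
def HG (ν : Nm) : Prop := ∀ μ, μ = ν ∨ tc ν μ → Gd μ

theorem HG.sub {ν μ : Nm} (h : HG ν) (hμ : tc ν μ) : HG μ := by
  rintro ρ (rfl | hρ)
  · exact h _ (Or.inr hμ)
  · exact h _ (Or.inr (Relation.TransGen.trans hρ hμ))

theorem closed_HG : Closed HG := fun _ _ h h' => h.sub (tc_of_sub h')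

/-- the conditions -/
def Cnd (p : Cd) : Prop := Cn HG p

theorem Cnd.res {p : Cd} (h : Cnd p) {A : Nm → Prop} (hA : Closed A) : Cnd (res A p) :=
  ⟨h.1.res hA, fun f hf => h.2 f (res_sub _ _ hf)⟩

theorem Cnd.cn {p : Cd} (h : Cnd p) {A : Nm → Prop} (hA : Closed A) : Cn A (PX.res A p) :=
  ⟨h.1.res hA, res_in⟩

theorem cnd_of_tc {ν : Nm} (hν : HG ν) {q : Cd} (h : Cn (tc ν) q) : Cnd q :=
  ⟨h.1, fun f hf => (h.2 f hf).mono fun _ hμ => hν.sub hμ⟩

theorem Ok.empty : Ok ∅ := ⟨by simp, by simp, by simp, by simp, by simp, by simp⟩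

theorem Cnd.empty : Cnd ∅ := ⟨Ok.empty, by simp⟩

/-! ### an injective rank -/

/-- the rank of a name -/
noncomputable def rk (ν : Nm) : Ordinal.{0} := IsWellFounded.rank Sub ν

theorem rk_lt_of_sub {μ ν : Nm} (h : Sub μ ν) : rk μ < rk ν := IsWellFounded.rank_lt_of_rel h

/-- a well-order of the names which extends `Sub` -/
def LtN (μ ν : Nm) : Prop := rk μ < rk ν ∨ rk μ = rk ν ∧ WellOrderingRel μ ν

theorem wf_LtN : WellFounded LtN := by
  have h : WellFounded (Prod.Lex (α := Ordinal.{0}) (β := Nm) (· < ·) WellOrderingRel) :=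
    WellFounded.prod_lex wellFounded_lt WellOrderingRel.isWellOrder.wf
  refine Subrelation.wf ?_ (InvImage.wf (fun ν : Nm => (rk ν, ν)) h)
  intro μ ν hμν
  change Prod.Lex _ _ (rk μ, μ) (rk ν, ν)
  rw [Prod.lex_def]
  exact hμν

instance : IsWellFounded Nm LtN := ⟨wf_LtN⟩

theorem LtN_tri (μ ν : Nm) : LtN μ ν ∨ μ = ν ∨ LtN ν μ := by
  rcases lt_trichotomy (rk μ) (rk ν) with h | h | h
  · exact Or.inl (Or.inl h)
  · rcases trichotomous_of (WellOrderingRel (α := Nm)) μ ν with h' | h' | h'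
    · exact Or.inl (Or.inr ⟨h, h'⟩)
    · exact Or.inr (Or.inl h')
    · exact Or.inr (Or.inr (Or.inr ⟨h.symm, h'⟩))
  · exact Or.inr (Or.inr (Or.inl h))

/-- the injective rank -/
noncomputable def rho (ν : Nm) : Ordinal.{0} := IsWellFounded.rank LtN ν

theorem rho_inj {μ ν : Nm} (h : rho μ = rho ν) : μ = ν := by
  rcases LtN_tri μ ν with h1 | h1 | h1
  · exact absurd h (IsWellFounded.rank_lt_of_rel h1).ne
  · exact h1
  · exact absurd h (IsWellFounded.rank_lt_of_rel h1).ne'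

theorem rho_lt_of_sub {μ ν : Nm} (h : Sub μ ν) : rho μ < rho ν :=
  IsWellFounded.rank_lt_of_rel (Or.inl (rk_lt_of_sub h))

theorem rho_lt_of_tc {μ ν : Nm} (h : tc ν μ) : rho μ < rho ν := by
  induction h with
  | single h => exact rho_lt_of_sub h
  | tail _ h ih => exact ih.trans (rho_lt_of_sub h)

/-- names of rank below `τ` -/
def Bel (τ : Ordinal.{0}) (ν : Nm) : Prop := rho ν < τ

theorem closed_bel (τ : Ordinal.{0}) : Closed (Bel τ) := fun _ _ h h' =>
  lt_trans (rho_lt_of_sub h') h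

/-- conditions with names of rank below `τ` -/
def Cs (τ : Ordinal.{0}) (p : Cd) : Prop := Cnd p ∧ ∀ f ∈ p, f.In (Bel τ)

theorem Cs.low {p : Cd} (h : Cnd p) (τ : Ordinal.{0}) : Cs τ (res (Bel τ) p) :=
  ⟨h.res (closed_bel τ), res_in⟩

theorem Cs.mono {σ τ : Ordinal.{0}} (h : σ ≤ τ) {p : Cd} (hp : Cs σ p) : Cs τ p :=
  ⟨hp.1, fun f hf => (hp.2 f hf).mono fun _ hν => lt_of_lt_of_le hν h⟩

/-- amalgamation -/
theorem Cnd.union {A : Nm → Prop} {r p : Cd} (hr : Cnd r) (hA : ∀ f ∈ r, f.In A) (hp : Cnd p)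
    (h : PX.res A p ⊆ r) : Cnd (r ∪ p) :=
  ⟨hr.1.union hA hp.1 h, fun f hf => (Finset.mem_union.1 hf).elim (hr.2 f) (hp.2 f)⟩

/-! ### transfer of the goodness of names -/

section
variable {ν : Nm} (hν : HG ν) {σ : Ordinal.{0}} (hσ : rho ν ≤ σ)
include hν hσ

theorem ext_tc {q q1 : Cd} (hq : Cs σ q) (hq1 : Cn (tc ν) q1) (h : res (tc ν) q ⊆ q1) :
    Cs σ (q1 ∪ q) := by
  refine ⟨(cnd_of_tc hν hq1).union hq1.2 hq.1 h, fun f hf => ?_⟩
  rcases Finset.mem_union.1 hf with h1 | h1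
  · exact (hq1.2 f h1).mono fun μ hμ => lt_of_lt_of_le (rho_lt_of_tc hμ) hσ
  · exact hq.2 f h1

omit hσ hν in
theorem tcn (ν : Nm) {q : Cd} (hq : Cs σ q) : Cn (tc ν) (res (tc ν) q) := hq.1.cn (closed_tc ν)

theorem G0 (j : Ix) {q : Cd} (hq : Cs σ q) : ∃ q', Cs σ q' ∧ q ⊆ q' ∧ ∃ b, D q' ν j b := by
  obtain ⟨q1, h1, h2, b, h3⟩ := (hν ν (Or.inl rfl)).g0 j _ (tcn ν hq)
  exact ⟨q1 ∪ q, ext_tc hν hσ hq h1 h2, Finset.subset_union_right, b,
    h3.mono Finset.subset_union_left⟩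

omit hσ in
theorem G1 (j : Ix) {q : Cd} (hq : Cs σ q) (h1 : D q ν j true) (h2 : D q ν j false) : False :=
  (hν ν (Or.inl rfl)).g1 j _ (tcn ν hq) h1.res_tc h2.res_tc

theorem G2 {e δ : W} (he : Lim e) (hδ : Lim δ) (hδe : δ < e) {q : Cd} (hq : Cs σ q)
    (hd : D q ν (true, e, δ, true) false) :
    ∃ q', Cs σ q' ∧ q ⊆ q' ∧ ∃ g < δ, ∀ y, g ≤ y → y < δ → ∀ t r, Cs σ r → q' ⊆ r →
      ¬ D r ν (true, e, y, t) true := by
  obtain ⟨q1, h1, h2, g, hg, h3⟩ := (hν ν (Or.inl rfl)).g2 e δ he hδ hδe _ (tcn ν hq) hd.res_tc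
  refine ⟨q1 ∪ q, ext_tc hν hσ hq h1 h2, Finset.subset_union_right, g, hg, ?_⟩
  intro y hy1 hy2 t r hr hqr hD
  exact h3 y hy1 hy2 t _ (tcn ν hr) (sub_res (Finset.subset_union_left.trans hqr) h1.2) hD.res_tc

theorem G3 {e δ : W} (he : Lim e) (hδ : Lim δ) (hδe : δ < e) {q : Cd} (hq : Cs σ q)
    (hd : D q ν (true, e, δ, true) true) :
    ∃ q', Cs σ q' ∧ q ⊆ q' ∧ ∃ g < δ, ∀ y, g ≤ y → y < δ → ∀ t b r, Cs σ r → q' ⊆ r →
      D r ν (true, e, y, t) b → D r ν (false, δ, y, t) (!b) → False := by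
  obtain ⟨q1, h1, h2, g, hg, h3⟩ := (hν ν (Or.inl rfl)).g3 e δ he hδ hδe _ (tcn ν hq) hd.res_tc
  refine ⟨q1 ∪ q, ext_tc hν hσ hq h1 h2, Finset.subset_union_right, g, hg, ?_⟩
  intro y hy1 hy2 t b r hr hqr hD hD'
  exact h3 y hy1 hy2 t b _ (tcn ν hr) (sub_res (Finset.subset_union_left.trans hqr) h1.2)
    hD.res_tc hD'.res_tc

theorem G4 {X : Set W} (hX : Unb X) (hXl : ∀ x ∈ X, Lim x) {q : Cd} (hq : Cs σ q) :
    ∃ q', Cs σ q' ∧ q ⊆ q' ∧ ∃ δ, Lim δ ∧ ∀ g < δ, ∀ r, Cs σ r → q' ⊆ r →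
      ∃ r', Cs σ r' ∧ r ⊆ r' ∧ ∃ x ∈ X, g < x ∧ x < δ ∧ D r' ν (false, δ, x, true) false := by
  obtain ⟨q1, h1, h2, δ, hδ, h3⟩ := (hν ν (Or.inl rfl)).g4 X hX hXl _ (tcn ν hq)
  refine ⟨q1 ∪ q, ext_tc hν hσ hq h1 h2, Finset.subset_union_right, δ, hδ, ?_⟩
  intro g hg r hr hqr
  obtain ⟨r1, k1, k2, x, hx, k3, k4, k5⟩ := h3 g hg _ (tcn ν hr)
    (sub_res (Finset.subset_union_left.trans hqr) h1.2)
  exact ⟨r1 ∪ r, ext_tc hν hσ hr k1 k2, Finset.subset_union_right, x, hx, k3, k4,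
    k5.mono Finset.subset_union_left⟩

/-- deciding finitely many statuses -/
theorem decide_all {J : Type*} (T : Finset J) (f : J → Ix) {q : Cd} (hq : Cs σ q) :
    ∃ q', Cs σ q' ∧ q ⊆ q' ∧ ∀ j ∈ T, ∃ b, D q' ν (f j) b := by
  classical
  induction T using Finset.induction_on with
  | empty => exact ⟨q, hq, subset_rfl, by simp⟩
  | insert j T _ ih =>
    obtain ⟨q1, h1, h2, h3⟩ := ih
    obtain ⟨q2, k1, k2, b, k3⟩ := G0 hν hσ (f j) h1
    refine ⟨q2, k1, h2.trans k2, fun i hi => ?_⟩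
    rcases Finset.mem_insert.1 hi with rfl | hi
    · exact ⟨b, k3⟩
    · obtain ⟨b', h4⟩ := h3 i hi
      exact ⟨b', h4.mono k2⟩

/-- bounding finitely many rows below `δ` -/
theorem bound_all {δ : W} (hδ : Lim δ) (T : Finset W) (hT : ∀ e ∈ T, Lim e ∧ δ < e) {q : Cd}
    (hq : Cs σ q) (hd : ∀ e ∈ T, D q ν (true, e, δ, true) false) :
    ∃ q', Cs σ q' ∧ q ⊆ q' ∧ ∃ g < δ, ∀ e ∈ T, ∀ y, g ≤ y → y < δ → ∀ t r, Cs σ r → q' ⊆ r →
      ¬ D r ν (true, e, y, t) true := by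
  classical
  induction T using Finset.induction_on with
  | empty =>
    obtain ⟨γ, hγ⟩ := hδ.1
    exact ⟨q, hq, subset_rfl, γ, hγ, by simp⟩
  | insert e T _ ih =>
    obtain ⟨q1, h1, h2, g, hg, h3⟩ := ih (fun e' he' => hT e' (Finset.mem_insert_of_mem he'))
      (fun e' he' => hd e' (Finset.mem_insert_of_mem he'))
    obtain ⟨he1, he2⟩ := hT e (Finset.mem_insert_self _ _)
    obtain ⟨q2, k1, k2, g', hg', k3⟩ := G2 hν hσ he1 hδ he2 h1
      ((hd e (Finset.mem_insert_self _ _)).mono h2)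
    refine ⟨q2, k1, h2.trans k2, max g g', max_lt hg hg', ?_⟩
    intro e' he' y hy1 hy2 t r hr hqr
    rcases Finset.mem_insert.1 he' with rfl | he'
    · exact k3 y ((le_max_right _ _).trans hy1) hy2 t r hr hqr
    · exact h3 e' he' y ((le_max_left _ _).trans hy1) hy2 t r hr (k2.trans hqr)

end

end H2.PX
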