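import Pool.Agent.H2.PX.Thin

/-!
# Thinning out a sequence of conditions
-/

open Set

namespace H2.PX
open H9.PF

/-- the ordinal in a fact -/
def Fact.ord : Fact → W
  | .l α _ => α
  | .c _ _ _ x => x
  | .s _ _ e => e

/-- the index in a fact -/
def Fact.idx : Fact → ℕ
  | .l _ _ => 0
  | .c _ _ i _ => i
  | .s _ i _ => i

/-- the name in a fact -/
noncomputable def Fact.nms : Fact → Finset Nm
  | .l _ _ => ∅
  | .c _ ν _ _ => {ν}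
  | .s ν _ _ => {ν}

/-- the names in a condition -/
noncomputable def nms (p : Cd) : Finset Nm := p.biUnion Fact.nms

theorem mem_nms_c {p : Cd} {t : Bool} {ν : Nm} {i : ℕ} {x : W} (h : Fact.c t ν i x ∈ p) :
    ν ∈ nms p :=
  Finset.mem_biUnion.2 ⟨_, h, Finset.mem_singleton_self ν⟩

theorem mem_nms_s {p : Cd} {ν : Nm} {i : ℕ} {x : W} (h : Fact.s ν i x ∈ p) : ν ∈ nms p :=
  Finset.mem_biUnion.2 ⟨_, h, Finset.mem_singleton_self ν⟩

theorem of_mem_nms {p : Cd} {ν : Nm} (h : ν ∈ nms p) {A : Nm → Prop} (hp : ∀ f ∈ p, f.In A) :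
    A ν := by
  obtain ⟨f, hf, h⟩ := Finset.mem_biUnion.1 h
  have := hp f hf
  cases f with
  | l => simp [Fact.nms] at h
  | c t μ i x =>
    have h' : ν = μ := Finset.mem_singleton.1 h
    subst h'; exact this
  | s μ i x =>
    have h' : ν = μ := Finset.mem_singleton.1 h
    subst h'; exact this

/-- the ordinals in a condition -/
noncomputable def ors (p : Cd) : Finset W := p.image Fact.ord

theorem mem_ors {p : Cd} {f : Fact} (h : f ∈ p) : f.ord ∈ ors p := Finset.mem_image_of_mem _ h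

/-- the promises of the coordinate `ν` in a condition -/
noncomputable def Fact.prm (ν : Nm) : Fact → Finset (ℕ × W)
  | .l _ _ => ∅
  | .c _ _ _ _ => ∅
  | .s μ i e => if μ = ν then {(i, e)} else ∅

noncomputable def prms (ν : Nm) (p : Cd) : Finset (ℕ × W) := by
  classical exact p.biUnion (Fact.prm ν)

theorem mem_prms {p : Cd} {ν : Nm} {t : ℕ × W} : t ∈ prms ν p ↔ Fact.s ν t.1 t.2 ∈ p := by
  classical
  unfold prms
  rw [Finset.mem_biUnion]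
  constructor
  · rintro ⟨f, hf, h⟩
    cases f with
    | l => simp [Fact.prm] at h
    | c => simp [Fact.prm] at h
    | s μ i e =>
      by_cases hμ : μ = ν
      · subst hμ
        have h' : t = (i, e) := by simpa [Fact.prm] using h
        rw [h']; exact hf
      · simp [Fact.prm, hμ] at h
  · intro h
    exact ⟨_, h, by simp [Fact.prm]⟩

/-- the name in the fact belongs to the finite set `E` -/
def Fact.Top (E : Finset Nm) : Fact → Prop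
  | .l _ _ => False
  | .c _ ν _ _ => ν ∈ E
  | .s ν _ _ => ν ∈ E

/-- A thinned out sequence `p` of conditions of rank below `τ`, with root `E` (names), and
extensions `p1` of their parts of rank below `σ`. -/
structure Data (σ τ : Ordinal.{0}) (E : Finset Nm) (R : Finset W) (N : ℕ) (h : W) (p p1 : W → Cd)
    (X : W → W) : Prop where
  cnd : ∀ ξ, Cs τ (p ξ)
  lt : ∀ ξ, ξ < X ξ
  dis : ∀ ξ ζ, ξ ≠ ζ → ∀ ν ∈ nms (p ξ), ν ∈ nms (p ζ) → ν ∈ E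
  Ehg : ∀ ν ∈ E, HG ν
  Ele : ∀ ν ∈ E, rho ν ≤ σ
  ord : ∀ ξ f, f ∈ p ξ → f.ord ∈ R ∨ ξ < f.ord
  tr : ∀ ξ ζ f, f ∈ p ξ → f.ord ∈ R → f.Top E → f ∈ p ζ
  idx : ∀ ξ f, f ∈ p ξ → f.idx < N
  cnd1 : ∀ ξ, Cs σ (p1 ξ)
  le1 : ∀ ξ, res (Bel σ) (p ξ) ⊆ p1 ξ
  act1 : ∀ ξ ν i e, ν ∈ E → rho ν = σ → Fact.s ν i e ∈ p ξ → e ∉ R → ∀ y, h ≤ y → y ≤ ξ →
    ∀ u r, Cs σ r → p1 ξ ⊆ r → ¬ D r ν (true, e, y, u) true
  act2 : ∀ ξ ζ ν i e, ν ∈ E → rho ν = σ → Fact.s ν i e ∈ p ξ → e ∉ R →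
    ∃ e', Fact.s ν i e' ∈ p ζ ∧ e' ∉ R ∧ ∀ r, Cs σ r → p1 ξ ⊆ r → p1 ζ ⊆ r → ∀ y < h, ∀ u b,
      D r ν (true, e, y, u) b → D r ν (true, e', y, u) (!b) → False

open Classical in
theorem prep {τ : Ordinal.{0}} (hτ : 0 < τ) (IH : ∀ σ < τ, HitAt σ) (F : W → Cd × W)
    (hF : ∀ ξ, Cs τ (F ξ).1 ∧ ξ < (F ξ).2) :
    ∃ σ < τ, ∃ E R N h p p1 X, Data σ τ E R N h p p1 X ∧
      ∃ f : W → W, ∀ ζ, p ζ = (F (f ζ)).1 ∧ X ζ = (F (f ζ)).2 := by
  -- the root of the names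
  obtain ⟨E, U1, -, hU1, hE1, hE2⟩ := delta (fun ξ => nms (F ξ).1) unb_univ
  obtain ⟨ξ0, hξ0, -⟩ := hU1 (Classical.arbitrary W)
  have hEhg : ∀ ν ∈ E, HG ν := fun ν hν => of_mem_nms (hE1 ξ0 hξ0 hν) (hF ξ0).1.1.2
  have hEτ : ∀ ν ∈ E, rho ν < τ := fun ν hν => of_mem_nms (hE1 ξ0 hξ0 hν) (hF ξ0).1.2
  set σ : Ordinal.{0} := E.sup rho with hσ
  have hEσ : ∀ ν ∈ E, rho ν ≤ σ := fun ν hν => Finset.le_sup hν
  have hστ : σ < τ := (Finset.sup_lt_iff (by simpa using hτ)).2 hEτ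
  -- the root of the ordinals
  obtain ⟨R, U2, hU21, hU2, -, hR2⟩ := delta (fun ξ => ors (F ξ).1) hU1
  obtain ⟨U3, hU32, hU3, hN⟩ := pigeon' hU2 (fun ξ => (F ξ).1.sup Fact.idx)
  -- the trace on the roots
  let TR : Set Fact := {f | f.ord ∈ R ∧ f.Top E}
  have hTR : TR.Countable := by
    have : TR ⊆ ⋃ ν ∈ (E : Set Nm), ⋃ x ∈ (R : Set W),
        ((range (fun i => Fact.c false ν i x) ∪ range (fun i => Fact.c true ν i x)) ∪
          range (fun i => Fact.s ν i x)) := by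
      rintro f ⟨hx, hν⟩
      cases f with
      | l => exact hν.elim
      | c t ν i x =>
        refine mem_biUnion (x := ν) hν (mem_biUnion (x := x) hx (Or.inl ?_))
        cases t with
        | false => exact Or.inl ⟨i, rfl⟩
        | true => exact Or.inr ⟨i, rfl⟩
      | s ν i x =>
        exact mem_biUnion (x := ν) hν (mem_biUnion (x := x) hx (Or.inr ⟨i, rfl⟩))
    refine Countable.mono this ?_
    refine E.finite_toSet.countable.biUnion fun ν _ => R.finite_toSet.countable.biUnion fun x _ => ?_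
    exact ((countable_range _).union (countable_range _)).union (countable_range _)
  obtain ⟨U4, hU43, hU4, htr⟩ := pigeon hU3 (fun ξ => (F ξ).1.filter (fun f => f ∈ TR))
    ((countable_finsets hTR).mono (by
      rintro _ ⟨ξ, -, rfl⟩ f hf
      exact (Finset.mem_filter.1 hf).2))
  -- first reindexing
  obtain ⟨f1, hf1m, -, hf1⟩ := choose_mono
    (fun ζ ξ => ξ ∈ U4 ∧ ∀ x ∈ ors (F ξ).1, x ∈ R ∨ ζ < x) id (by
    intro ζ γ
    have hc : (⋃ x ∈ {x : W | x ≤ ζ}, {ξ ∈ U4 | x ∉ R ∧ x ∈ ors (F ξ).1}).Countable := by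
      refine (countable_of_bdd (γ := ζ) fun x hx => hx).biUnion fun x _ => ?_
      refine Set.Subsingleton.countable fun ξ hξ ξ' hξ' => ?_
      by_contra hne
      exact hξ.2.1 (hR2 ξ (hU32 (hU43 hξ.1)) ξ' (hU32 (hU43 hξ'.1)) hne x hξ.2.2 hξ'.2.2)
    obtain ⟨b, hb⟩ := exists_bound (hc.union (countable_singleton γ))
    obtain ⟨ξ, hξ, hbξ⟩ := hU4 b
    refine ⟨ξ, (hb γ (Or.inr rfl)).trans hbξ, hξ, fun x hx => ?_⟩
    by_contra hcon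
    push Not at hcon
    refine lt_asymm hbξ (hb ξ (Or.inl ?_))
    exact mem_biUnion (show x ∈ {x : W | x ≤ ζ} from hcon.2) ⟨hξ, hcon.1, hx⟩)
  have hU : ∀ ζ, f1 ζ ∈ U4 := fun ζ => (hf1 ζ).2.1
  have hcnd : ∀ ζ, Cs τ (F (f1 ζ)).1 := fun ζ => (hF _).1
  have hord : ∀ ζ f, f ∈ (F (f1 ζ)).1 → f.ord ∈ R ∨ ζ < f.ord := fun ζ f hf =>
    (hf1 ζ).2.2 f.ord (mem_ors hf)
  -- the second reindexing
  have key : ∃ h : W, ∃ f : W → W, StrictMono f ∧ (∀ ζ, ζ < f ζ) ∧ ∃ P1 : W → Cd,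
      (∀ ζ, Cs σ (P1 ζ)) ∧ (∀ ζ, res (Bel σ) (F (f1 (f ζ))).1 ⊆ P1 ζ) ∧
      (∀ ζ ν, ν ∈ E → rho ν = σ → ∀ t ∈ (prms ν (F (f1 (f ζ))).1).filter (fun t => t.2 ∉ R),
        ∀ y, h ≤ y → y ≤ ζ → ∀ u r, Cs σ r → P1 ζ ⊆ r → ¬ D r ν (true, t.2, y, u) true) ∧
      (∀ ζ ζ' ν, ν ∈ E → rho ν = σ → ∀ t ∈ (prms ν (F (f1 (f ζ))).1).filter (fun t => t.2 ∉ R),
        ∃ t' ∈ (prms ν (F (f1 (f ζ'))).1).filter (fun t => t.2 ∉ R), t'.1 = t.1 ∧
        ∀ r, Cs σ r → P1 ζ ⊆ r → P1 ζ' ⊆ r → ∀ y < h, ∀ u b, D r ν (true, t.2, y, u) b →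
        D r ν (true, t'.2, y, u) (!b) → False) := by
    by_cases hE : ∃ ν ∈ E, rho ν = σ
    · obtain ⟨ν, hν, hνσ⟩ := hE
      obtain ⟨h, f, k1, k2, P1, k3, k4, k5, k6⟩ := thin (hEhg ν hν) (hEσ ν hν) (IH σ hστ)
        (fun η => res (Bel σ) (F (f1 η)).1) (fun η => Cs.low (hcnd η).1 σ)
        (fun η => (prms ν (F (f1 η)).1).filter (fun t => t.2 ∉ R)) (by
          intro η t ht
          obtain ⟨h1, h2⟩ := Finset.mem_filter.1 ht
          have h3 := mem_prms.1 h1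
          exact ⟨(hcnd η).1.1.ls _ _ _ h3, (hord η _ h3).resolve_left h2⟩)
      refine ⟨h, f, k1, k2, P1, k3, k4, ?_, ?_⟩
      · intro ζ μ hμ hμσ
        have e : μ = ν := rho_inj (hμσ.trans hνσ.symm)
        subst e; exact k5 ζ
      · intro ζ ζ' μ hμ hμσ
        have e : μ = ν := rho_inj (hμσ.trans hνσ.symm)
        subst e; exact k6 ζ ζ'
    · choose s hs using exists_gt'
      obtain ⟨f, g1, -, g2⟩ := choose_mono (fun _ _ => True) id (fun ζ γ => ⟨s γ, hs γ, trivial⟩)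
      exact ⟨Classical.arbitrary W, f, g1, fun ζ => (g2 ζ).1, fun ζ => res (Bel σ) (F (f1 (f ζ))).1,
        fun ζ => Cs.low (hcnd _).1 σ, fun ζ => subset_rfl,
        fun ζ ν h1 h2 => absurd ⟨ν, h1, h2⟩ hE, fun ζ ζ' ν h1 h2 => absurd ⟨ν, h1, h2⟩ hE⟩
  obtain ⟨h, f2, hf2m, hf2, P1, hP1, hP2, hP3, hP4⟩ := key
  refine ⟨σ, hστ, E, R, (F (f1 ξ0)).1.sup Fact.idx + 1, h, fun ζ => (F (f1 (f2 ζ))).1,
    P1, fun ζ => (F (f1 (f2 ζ))).2, ⟨?_, ?_, ?_, hEhg, hEσ, ?_, ?_, ?_,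
    hP1, hP2, ?_, ?_⟩, fun ζ => f1 (f2 ζ), fun ζ => ⟨rfl, rfl⟩⟩
  · exact fun ζ => hcnd _
  · exact fun ζ => ((hf2 ζ).trans (hf1 _).1).trans (hF _).2
  · intro ξ ζ hne ν h1 h2
    refine hE2 _ (hU21 (hU32 (hU43 (hU (f2 ξ))))) _ (hU21 (hU32 (hU43 (hU (f2 ζ))))) ?_ ν h1 h2
    exact fun h => hne (hf2m.injective (hf1m.injective h))
  · intro ξ f hf
    exact (hord _ f hf).imp id fun h => (hf2 ξ).trans h
  · intro ξ ζ f h1 h3 h4
    have h5 : f ∈ (F (f1 (f2 ξ))).1.filter (fun f => f ∈ TR) :=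
      Finset.mem_filter.2 ⟨h1, h3, h4⟩
    have h6 : (F (f1 (f2 ξ))).1.filter (fun f => f ∈ TR) =
      (F (f1 (f2 ζ))).1.filter (fun f => f ∈ TR) := htr _ (hU _) _ (hU _)
    rw [h6] at h5
    exact (Finset.mem_filter.1 h5).1
  · intro ξ f h
    have h1 : f.idx ≤ (F (f1 (f2 ξ))).1.sup Fact.idx := Finset.le_sup h
    have h2 : (F (f1 (f2 ξ))).1.sup Fact.idx = (F (f1 ξ0)).1.sup Fact.idx :=
      hN _ (hU43 (hU _)) _ (hU43 (hU _))
    rw [← h2]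
    exact Nat.lt_succ_of_le h1
  · intro ξ ν i e hν hνσ hs he
    exact hP3 ξ ν hν hνσ (i, e) (Finset.mem_filter.2 ⟨mem_prms.2 hs, he⟩)
  · intro ξ ζ ν i e hν hνσ hs he
    obtain ⟨⟨i', e'⟩, h1, h2, h3⟩ := hP4 ξ ζ ν hν hνσ (i, e)
      (Finset.mem_filter.2 ⟨mem_prms.2 hs, he⟩)
    obtain ⟨h4, h5⟩ := Finset.mem_filter.1 h1
    have h6 := mem_prms.1 h4
    simp only at h2 h5 h6
    subst h2
    exact ⟨e', h6, h5, h3⟩

end H2.PX
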