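import Pool.Agent.H2.PX.Trace

/-!
# Thinning out with respect to one good name
-/

open Set

namespace H2.PX
open H9.PF

/-- increasing choices -/
theorem choose_mono (Q : W → W → Prop) (η : W → W) (h : ∀ ζ γ, ∃ ξ, γ < ξ ∧ Q ζ ξ) :
    ∃ f : W → W, StrictMono f ∧ (∀ j ζ, j < ζ → η (f j) < f ζ) ∧ ∀ ζ, ζ < f ζ ∧ Q ζ (f ζ) := by
  have hb : ∀ (ζ : W) (ih : ∀ j, j < ζ → W), ∃ γ : W, ζ < γ ∧
      ∀ j (hj : j < ζ), ih j hj < γ ∧ η (ih j hj) < γ := by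
    intro ζ ih
    have : Countable (Iio ζ) := (countable_Iio ζ).to_subtype
    obtain ⟨b, hb⟩ := exists_bound (((countable_range (fun j : Iio ζ => ih j.1 j.2)).union
      (countable_range (fun j : Iio ζ => η (ih j.1 j.2)))).union (countable_singleton ζ))
    exact ⟨b, hb ζ (Or.inr rfl), fun j hj => ⟨hb _ (Or.inl (Or.inl ⟨⟨j, hj⟩, rfl⟩)),
      hb _ (Or.inl (Or.inr ⟨⟨j, hj⟩, rfl⟩))⟩⟩
  choose bd hbd1 hbd2 using hb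
  choose nx hnx1 hnx2 using h
  let f : W → W := WellFoundedLT.fix fun ζ ih => nx ζ (bd ζ ih)
  have hf : ∀ ζ, f ζ = nx ζ (bd ζ fun j _ => f j) := fun ζ => WellFoundedLT.fix_eq _ ζ
  refine ⟨f, fun j ζ hj => ?_, fun j ζ hj => ?_, fun ζ => ⟨?_, ?_⟩⟩
  · rw [hf ζ]
    exact (hbd2 ζ (fun j _ => f j) j hj).1.trans (hnx1 _ _)
  · rw [hf ζ]
    exact (hbd2 ζ (fun j _ => f j) j hj).2.trans (hnx1 _ _)
  · rw [hf ζ]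
    exact (hbd1 ζ _).trans (hnx1 _ _)
  · rw [hf ζ]
    exact hnx2 _ _

/-- enumeration of a finite set -/
theorem exists_enum {T : Type*} [Nonempty T] (s : Finset T) :
    ∃ a : ℕ → T, (∀ t ∈ s, ∃ j < s.card, a j = t) ∧ ∀ j < s.card, a j ∈ s := by
  classical
  let e := s.equivFin
  refine ⟨fun j => if h : j < s.card then (e.symm ⟨j, h⟩).1 else Classical.arbitrary T, ?_, ?_⟩
  · intro t ht
    refine ⟨(e ⟨t, ht⟩).1, (e ⟨t, ht⟩).2, ?_⟩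
    simp only
    rw [dif_pos (e ⟨t, ht⟩).2]
    simp
  · intro j hj
    simp only
    rw [dif_pos hj]
    exact (e.symm ⟨j, hj⟩).2

section
variable {ν : Nm} (hν : HG ν) {σ : Ordinal.{0}} (hσ : rho ν ≤ σ)
include hν hσ

theorem thin (H : HitAt σ) (lp : W → Cd) (hlp : ∀ η, Cs σ (lp η)) (act : W → Finset (ℕ × W))
    (hact : ∀ η, ∀ t ∈ act η, Lim t.2 ∧ η < t.2) :
    ∃ h : W, ∃ f : W → W, StrictMono f ∧ (∀ ζ, ζ < f ζ) ∧ ∃ P1 : W → Cd,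
      (∀ ζ, Cs σ (P1 ζ)) ∧ (∀ ζ, lp (f ζ) ⊆ P1 ζ) ∧
      (∀ ζ, ∀ t ∈ act (f ζ), ∀ y, h ≤ y → y ≤ ζ → ∀ u r, Cs σ r → P1 ζ ⊆ r →
        ¬ D r ν (true, t.2, y, u) true) ∧
      (∀ ζ ζ', ∀ t ∈ act (f ζ), ∃ t' ∈ act (f ζ'), t'.1 = t.1 ∧ ∀ r, Cs σ r → P1 ζ ⊆ r →
        P1 ζ' ⊆ r → ∀ y < h, ∀ u b, D r ν (true, t.2, y, u) b →
        D r ν (true, t'.2, y, u) (!b) → False) := by
  classical
  obtain ⟨b, hb⟩ := claimA hν hσ H lp hlp (fun η => (act η).image Prod.snd) (by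
    intro η e he
    obtain ⟨t, ht, rfl⟩ := Finset.mem_image.1 he
    exact hact η t ht)
  have h1 : ∀ ξ, ∃ η, ξ < η ∧ ∃ q, Cs σ q ∧ lp η ⊆ q ∧ ∃ g, Lim ξ → b < ξ → g < ξ ∧
      ∀ t ∈ act η, ∀ y, g ≤ y → y < ξ → ∀ u r, Cs σ r → q ⊆ r →
        ¬ D r ν (true, t.2, y, u) true := by
    intro ξ
    by_cases hξ : Lim ξ ∧ b < ξ
    · obtain ⟨η, hη, q, hq, hl, hd⟩ := hb ξ hξ.1 hξ.2
      obtain ⟨q', hq', hqq', g, hg, h2⟩ := bound_all hν hσ hξ.1 ((act η).image Prod.snd) (by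
        intro e he
        obtain ⟨t, ht, rfl⟩ := Finset.mem_image.1 he
        exact ⟨(hact η t ht).1, hη.trans (hact η t ht).2⟩) hq hd
      exact ⟨η, hη, q', hq', hl.trans hqq', g, fun _ _ => ⟨hg, fun t ht =>
        h2 t.2 (Finset.mem_image_of_mem _ ht)⟩⟩
    · obtain ⟨η, hη⟩ := exists_gt' ξ
      exact ⟨η, hη, lp η, hlp η, subset_rfl, ξ, fun h2 h3 => absurd ⟨h2, h3⟩ hξ⟩
  choose η hη q hq hlq g hg using h1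
  obtain ⟨h, hU0⟩ := fodor b g (fun ξ h2 h3 => (hg ξ h2 h3).1)
  set U0 : Set W := {ξ | Lim ξ ∧ b < ξ ∧ g ξ = h} with hU0def
  -- enumerations
  have h2 : ∀ ξ, ∃ a : ℕ → ℕ × W, (∀ t ∈ act (η ξ), ∃ j < (act (η ξ)).card, a j = t) ∧
      ∀ j < (act (η ξ)).card, a j ∈ act (η ξ) := fun ξ => exists_enum _
  choose a ha1 ha2 using h2
  obtain ⟨U1, hU10, hU1, hm⟩ := pigeon' hU0 (fun ξ => (act (η ξ)).card)
  obtain ⟨ξ0, hξ0, -⟩ := hU1 h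
  set m := (act (η ξ0)).card with hmdef
  have hm' : ∀ ξ ∈ U1, (act (η ξ)).card = m := fun ξ hξ => hm ξ hξ ξ0 hξ0
  have key : ∀ n ≤ m, ∃ U ⊆ U1, Unb U ∧ ∃ Q : W → Cd, (∀ ξ, Cs σ (Q ξ)) ∧ (∀ ξ, q ξ ⊆ Q ξ) ∧
      ∀ j < n, ∀ ξ ∈ U, ∀ ζ ∈ U, (a ξ j).1 = (a ζ j).1 ∧
        ∀ r, Cs σ r → Q ξ ⊆ r → Q ζ ⊆ r → ∀ y < h, ∀ u b,
          D r ν (true, (a ξ j).2, y, u) b → D r ν (true, (a ζ j).2, y, u) (!b) → False := by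
    intro n
    induction n with
    | zero => exact fun _ => ⟨U1, subset_rfl, hU1, q, hq, fun _ => subset_rfl, by simp⟩
    | succ n ih =>
      intro hn
      obtain ⟨U, k1, k2, Q, k3, k4, k5⟩ := ih (Nat.le_of_succ_le hn)
      obtain ⟨U2, l1, l2, l3⟩ := pigeon' k2 (fun ξ => (a ξ n).1)
      obtain ⟨U3, m1, m2, Q', m3, m4, m5⟩ := trace hν hσ h U2 Q (fun ξ => (a ξ n).2) l2 k3 (by
        intro ξ hξ
        have hξ1 : ξ ∈ U1 := k1 (l1 hξ)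
        have hξ0 := hU10 hξ1
        have h3 := hact (η ξ) (a ξ n) (ha2 ξ n (by rw [hm' ξ hξ1]; exact hn))
        refine ⟨h3.1, ?_⟩
        have h4 := (hg ξ hξ0.1 hξ0.2.1).1
        rw [hξ0.2.2] at h4
        exact h4.trans ((hη ξ).trans h3.2))
      refine ⟨U3, m1.trans (l1.trans k1), m2, Q', m3, fun ξ => (k4 ξ).trans (m4 ξ), ?_⟩
      intro j hj ξ hξ ζ hζ
      rcases Nat.lt_succ_iff_lt_or_eq.1 hj with hj | rfl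
      · obtain ⟨n1, n2⟩ := k5 j hj ξ (l1 (m1 hξ)) ζ (l1 (m1 hζ))
        exact ⟨n1, fun r hr h5 h6 => n2 r hr ((m4 ξ).trans h5) ((m4 ζ).trans h6)⟩
      · exact ⟨l3 ξ (m1 hξ) ζ (m1 hζ), m5 ξ hξ ζ hζ⟩
  obtain ⟨U, k1, k2, Q, k3, k4, k5⟩ := key m le_rfl
  obtain ⟨f, hf1, hf2, hf3⟩ := choose_mono (fun _ ξ => ξ ∈ U) η (fun _ γ => by
    obtain ⟨ξ, h1, h2⟩ := k2 γ; exact ⟨ξ, h2, h1⟩)
  refine ⟨h, fun ζ => η (f ζ), fun j ζ hj => (hf2 j ζ hj).trans (hη _),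
    fun ζ => (hf3 ζ).1.trans (hη _), fun ζ => Q (f ζ), fun ζ => k3 _,
    fun ζ => (hlq _).trans (k4 _), ?_, ?_⟩
  · intro ζ t ht y hy1 hy2 u r hr hQr
    have h3 := hU10 (k1 (hf3 ζ).2)
    refine (hg (f ζ) h3.1 h3.2.1).2 t ht y ?_ (hy2.trans_lt (hf3 ζ).1) u r hr ((k4 _).trans hQr)
    rw [h3.2.2]; exact hy1
  · intro ζ ζ' t ht
    obtain ⟨j, hj, rfl⟩ := ha1 (f ζ) t ht
    rw [hm' _ (k1 (hf3 ζ).2)] at hj
    obtain ⟨l1, l2⟩ := k5 j hj (f ζ) (hf3 ζ).2 (f ζ') (hf3 ζ').2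
    refine ⟨a (f ζ') j, ha2 _ _ ?_, l1.symm, l2⟩
    rw [hm' _ (k1 (hf3 ζ').2)]; exact hj

end

end H2.PX
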