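import Pool.Agent.H2.PX.Names

/-!
# The hitting property and its consequences for one good name
-/

open Set

namespace H2.PX
open H9.PF

/-- the hitting property for conditions of rank below `τ` -/
def HitAt (τ : Ordinal.{0}) : Prop :=
  ∀ F : W → Cd × W, (∀ ξ, Cs τ (F ξ).1 ∧ ξ < (F ξ).2) → ∀ g : W → W,
    ∃ α, Lim α ∧ (∀ γ < α, g γ < α) ∧ ∃ q, Cs τ q ∧
      ∀ q', Cs τ q' → q ⊆ q' → ∀ γ < α, ∃ ξ, γ < (F ξ).2 ∧ (F ξ).2 < α ∧
        ∃ r, Cs τ r ∧ q' ⊆ r ∧ (F ξ).1 ⊆ r ∧ Fact.l α (F ξ).2 ∈ r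

/-- some condition forces that unboundedly many of the given conditions are in the generic
filter -/
theorem abund {σ : Ordinal.{0}} (H : HitAt σ) (F : W → Cd) (hF : ∀ ξ, Cs σ (F ξ)) :
    ∃ q, Cs σ q ∧ ∀ q', Cs σ q' → q ⊆ q' → ∀ γ, ∃ η, γ < η ∧ ∃ r, Cs σ r ∧ q' ⊆ r ∧ F η ⊆ r := by
  by_contra hcon
  have h1 : ∀ η, ∃ q', Cs σ q' ∧ F η ⊆ q' ∧ ∃ γ, ∀ ζ, γ < ζ → ∀ r, Cs σ r → q' ⊆ r → ¬ F ζ ⊆ r := by
    intro η
    by_contra h2
    refine hcon ⟨F η, hF η, fun q' h3 h4 γ => ?_⟩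
    by_contra h5
    refine h2 ⟨q', h3, h4, γ, fun ζ h6 r h7 h8 h9 => h5 ⟨ζ, h6, r, h7, h8, h9⟩⟩
  choose Q hQ1 hQ2 γ hγ using h1
  have h2 : ∀ ξ : W, ∃ x, ξ < x ∧ γ ξ < x := fun ξ => by
    obtain ⟨b, hb⟩ := exists_gt' (max ξ (γ ξ))
    exact ⟨b, (le_max_left _ _).trans_lt hb, (le_max_right _ _).trans_lt hb⟩
  choose X hX1 hX2 using h2
  obtain ⟨G, hG⟩ := exists_boundfun (fun ξ => {X ξ}) fun ξ => countable_singleton _
  obtain ⟨α, hα, hcl, q, hq, h3⟩ := H (fun ξ => (Q ξ, X ξ)) (fun ξ => ⟨hQ1 ξ, hX1 ξ⟩) G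
  obtain ⟨γ0, hγ0⟩ := hα.1
  obtain ⟨ξ, -, hξ, r, hr, hqr, hQr, -⟩ := h3 q hq subset_rfl γ0 hγ0
  have hγα : γ ξ < α := (hX2 ξ).trans hξ
  obtain ⟨ζ, hζ1, -, r', hr', hrr', hQr', -⟩ := h3 r hr hqr (G (γ ξ)) (hcl _ hγα)
  refine hγ ξ ζ ?_ r' hr' (hQr.trans hrr') ((hQ2 ζ).trans hQr')
  by_contra h4
  exact lt_asymm hζ1 (hG (γ ξ) ζ (not_lt.1 h4) _ rfl)

/-- pressing down -/
theorem fodor (b : W) (g : W → W) (hg : ∀ ξ, Lim ξ → b < ξ → g ξ < ξ) :
    ∃ h, Unb {ξ | Lim ξ ∧ b < ξ ∧ g ξ = h} := by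
  by_contra hcon
  push Not at hcon
  have h1 : ∀ h, ∃ B, ∀ ξ, Lim ξ → b < ξ → g ξ = h → ξ ≤ B := by
    intro h
    have h2 := hcon h
    unfold Unb at h2
    push Not at h2
    obtain ⟨B, hB⟩ := h2
    exact ⟨B, fun ξ h3 h4 h5 => hB ξ ⟨h3, h4, h5⟩⟩
  choose B hB using h1
  obtain ⟨α, hα, hbα, hcl⟩ := exists_closed B b
  have h2 := hg α hα hbα
  exact absurd (hB _ α hα hbα rfl) (not_le.2 (hcl _ h2))

section
variable {ν : Nm} (hν : HG ν) {σ : Ordinal.{0}} (hσ : rho ν ≤ σ)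
include hν hσ

/-- **Claim A.** For all sufficiently large limit points `ξ` some later condition has an extension
that decides that `ξ` is not an accumulation point of the rows in its promises. -/
theorem claimA (H : HitAt σ) (lp : W → Cd) (hlp : ∀ η, Cs σ (lp η)) (act : W → Finset W)
    (hact : ∀ η, ∀ e ∈ act η, Lim e ∧ η < e) :
    ∃ b, ∀ ξ, Lim ξ → b < ξ → ∃ η, ξ < η ∧ ∃ q, Cs σ q ∧ lp η ⊆ q ∧
      ∀ e ∈ act η, D q ν (true, e, ξ, true) false := by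
  classical
  by_contra hcon
  push Not at hcon
  let X : Set W := {ξ | Lim ξ ∧ ∀ η, ξ < η → ∀ q, Cs σ q → lp η ⊆ q →
    ∃ e ∈ act η, ¬ D q ν (true, e, ξ, true) false}
  have hX : Unb X := by
    intro b
    obtain ⟨ξ, h1, h2, h3⟩ := hcon b
    exact ⟨ξ, ⟨h1, h3⟩, h2⟩
  obtain ⟨q0, hq0, hab⟩ := abund H lp hlp
  obtain ⟨q1, hq1, h01, δ, hδ, h4⟩ := G4 hν hσ hX (fun x hx => hx.1) hq0
  obtain ⟨η, hη, r0, hr0, h1r, hlr⟩ := hab q1 hq1 h01 δ
  have hT : ∀ e ∈ act η, Lim e ∧ δ < e := fun e he => ⟨(hact η e he).1, hη.trans (hact η e he).2⟩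
  -- decide whether `δ` is an accumulation point
  obtain ⟨r1, hr1, h01', hd⟩ := decide_all hν hσ (act η) (fun e => (true, e, δ, true)) hr0
  -- the rows with value false
  obtain ⟨r2, hr2, h12, g, hg, hf⟩ := bound_all hν hσ hδ
    ((act η).filter (fun e => D r1 ν (true, e, δ, true) false))
    (fun e he => hT e (Finset.mem_filter.1 he).1) hr1 (fun e he => (Finset.mem_filter.1 he).2)
  -- the rows with value true
  have hpos : ∀ T : Finset W, (∀ e ∈ T, Lim e ∧ δ < e ∧ D r1 ν (true, e, δ, true) true) →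
      ∃ r3, Cs σ r3 ∧ r2 ⊆ r3 ∧ ∃ g' < δ, ∀ e ∈ T, ∀ y, g' ≤ y → y < δ → ∀ r, Cs σ r → r3 ⊆ r →
        D r ν (true, e, y, true) true → D r ν (false, δ, y, true) false → False := by
    intro T
    induction T using Finset.induction_on with
    | empty =>
      intro _
      obtain ⟨γ, hγ⟩ := hδ.1
      exact ⟨r2, hr2, subset_rfl, γ, hγ, by simp⟩
    | insert e T _ ih =>
      intro hT'
      obtain ⟨r3, k1, k2, g1, k3, k4⟩ := ih fun e' he' => hT' e' (Finset.mem_insert_of_mem he')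
      obtain ⟨l1, l2, l3⟩ := hT' e (Finset.mem_insert_self _ _)
      obtain ⟨r4, m1, m2, g2, m3, m4⟩ := G3 hν hσ l1 hδ l2 k1 ((l3.mono h12).mono k2)
      refine ⟨r4, m1, k2.trans m2, max g1 g2, max_lt k3 m3, ?_⟩
      intro e' he' y hy1 hy2 r hr hqr hD hD'
      rcases Finset.mem_insert.1 he' with rfl | he'
      · exact m4 y ((le_max_right _ _).trans hy1) hy2 true true r hr hqr hD hD'
      · exact k4 e' he' y ((le_max_left _ _).trans hy1) hy2 r hr (m2.trans hqr) hD hD'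
  obtain ⟨r3, hr3, h23, g', hg', ht⟩ := hpos
    ((act η).filter (fun e => D r1 ν (true, e, δ, true) true))
    (fun e he => ⟨(hT e (Finset.mem_filter.1 he).1).1, (hT e (Finset.mem_filter.1 he).1).2,
      (Finset.mem_filter.1 he).2⟩)
  have h13 : q1 ⊆ r3 := h1r.trans (h01'.trans (h12.trans h23))
  obtain ⟨r4, hr4, h34, x, hx, hgx, hxδ, hD⟩ := h4 (max g g') (max_lt hg hg') r3 hr3 h13
  obtain ⟨r5, hr5, h45, hd5⟩ := decide_all hν hσ (act η) (fun e => (true, e, x, true)) hr4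
  obtain ⟨e, he, hne⟩ := hx.2 η (hxδ.trans hη) r5 hr5
    (hlr.trans (h01'.trans (h12.trans (h23.trans (h34.trans h45)))))
  obtain ⟨b, hb⟩ := hd5 e he
  cases b with
  | false => exact hne hb
  | true =>
    obtain ⟨b', hb'⟩ := hd e he
    cases b' with
    | false =>
      exact hf e (Finset.mem_filter.2 ⟨he, hb'⟩) x ((le_max_left _ _).trans hgx.le) hxδ true r5 hr5
        (h23.trans (h34.trans h45)) hb
    | true =>
      exact ht e (Finset.mem_filter.2 ⟨he, hb'⟩) x ((le_max_right _ _).trans hgx.le) hxδ r5 hr5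
        (h34.trans h45) hb (hD.mono h45)

/-- **Trace lemma.** -/
theorem trace (h : W) : ∀ (U : Set W) (Q : W → Cd) (e : W → W), Unb U → (∀ ξ, Cs σ (Q ξ)) →
    (∀ ξ ∈ U, Lim (e ξ) ∧ h < e ξ) →
    ∃ U' ⊆ U, Unb U' ∧ ∃ Q' : W → Cd, (∀ ξ, Cs σ (Q' ξ)) ∧ (∀ ξ, Q ξ ⊆ Q' ξ) ∧
      ∀ ξ ∈ U', ∀ ζ ∈ U', ∀ r, Cs σ r → Q' ξ ⊆ r → Q' ζ ⊆ r → ∀ y < h, ∀ t b,
        D r ν (true, e ξ, y, t) b → D r ν (true, e ζ, y, t) (!b) → False := by
  classical
  induction h using WellFoundedLT.induction with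
  | ind h ih =>
  intro U Q e hU hQ he
  by_cases h0 : ∃ γ, γ < h
  · by_cases hL : ∀ γ < h, ∃ δ < h, γ < δ
    · -- limit case
      have hh : Lim h := ⟨h0, hL⟩
      have h1 : ∀ ξ, ∃ q, Cs σ q ∧ Q ξ ⊆ q ∧ ∃ b : Bool, ∃ g < h, ξ ∈ U →
          ((b = false → ∀ y, g ≤ y → y < h → ∀ t r, Cs σ r → q ⊆ r →
            ¬ D r ν (true, e ξ, y, t) true) ∧
          (b = true → ∀ y, g ≤ y → y < h → ∀ t b r, Cs σ r → q ⊆ r →
            D r ν (true, e ξ, y, t) b → D r ν (false, h, y, t) (!b) → False)) := by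
        intro ξ
        by_cases hξ : ξ ∈ U
        · obtain ⟨q1, k1, k2, b, k3⟩ := G0 hν hσ (true, e ξ, h, true) (hQ ξ)
          cases b with
          | false =>
            obtain ⟨q2, l1, l2, g, l3, l4⟩ := G2 hν hσ (he ξ hξ).1 hh (he ξ hξ).2 k1 k3
            exact ⟨q2, l1, k2.trans l2, false, g, l3, fun _ => ⟨fun _ => l4, fun h => by simp at h⟩⟩
          | true =>
            obtain ⟨q2, l1, l2, g, l3, l4⟩ := G3 hν hσ (he ξ hξ).1 hh (he ξ hξ).2 k1 k3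
            exact ⟨q2, l1, k2.trans l2, true, g, l3, fun _ => ⟨fun h => by simp at h, fun _ => l4⟩⟩
        · obtain ⟨γ, hγ⟩ := h0
          exact ⟨Q ξ, hQ ξ, subset_rfl, false, γ, hγ, fun h => absurd h hξ⟩
      choose Q1 hQ1 hQ11 b g hg hbg using h1
      obtain ⟨U1, hU1, hU1u, hc⟩ := pigeon hU (fun ξ => (b ξ, g ξ)) (by
        have : (fun ξ => (b ξ, g ξ)) '' U ⊆ (univ : Set Bool) ×ˢ Iio h := by
          rintro _ ⟨ξ, -, rfl⟩
          exact ⟨trivial, hg ξ⟩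
        exact (countable_univ.prod (countable_Iio h)).mono this)
      obtain ⟨ξ0, hξ0, -⟩ := hU1u h
      obtain ⟨U2, hU2, hU2u, Q2, hQ2, hQ12, htr⟩ := ih (g ξ0) (hg ξ0) U1 Q1 e hU1u hQ1
        (fun ξ hξ => ⟨(he ξ (hU1 hξ)).1, (hg ξ0).trans (he ξ (hU1 hξ)).2⟩)
      refine ⟨U2, hU2.trans hU1, hU2u, Q2, hQ2, fun ξ => (hQ11 ξ).trans (hQ12 ξ), ?_⟩
      intro ξ hξ ζ hζ r hr h1 h2 y hy t b' hD hD'
      by_cases hyg : y < g ξ0
      · exact htr ξ hξ ζ hζ r hr h1 h2 y hyg t b' hD hD'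
      · rw [not_lt] at hyg
        have e1 := hc ξ (hU2 hξ) ξ0 hξ0
        have e2 := hc ζ (hU2 hζ) ξ0 hξ0
        simp only [Prod.mk.injEq] at e1 e2
        have hy1 : g ξ ≤ y := e1.2.trans_le hyg
        have hy2 : g ζ ≤ y := e2.2.trans_le hyg
        have hr1 : Q1 ξ ⊆ r := (hQ12 ξ).trans h1
        have hr2 : Q1 ζ ⊆ r := (hQ12 ζ).trans h2
        obtain ⟨f1, f2⟩ := hbg ξ (hU1 (hU2 hξ))
        obtain ⟨f3, f4⟩ := hbg ζ (hU1 (hU2 hζ))
        rcases hb0 : b ξ0 with _ | _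
        · cases b' with
          | false => exact f3 (e2.1.trans hb0) y hy2 hy t r hr hr2 hD'
          | true => exact f1 (e1.1.trans hb0) y hy1 hy t r hr hr1 hD
        · obtain ⟨r', k1, k2, c, k3⟩ := G0 hν hσ (false, h, y, t) hr
          have f2' := f2 (e1.1.trans hb0) y hy1 hy t
          have f4' := f4 (e2.1.trans hb0) y hy2 hy t
          by_cases hc' : c = b'
          · subst hc'
            exact f4' (!c) r' k1 (hr2.trans k2) (hD'.mono k2) (by rwa [Bool.not_not])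
          · have : c = !b' := Bool.eq_not_iff.2 hc'
            subst this
            exact f2' b' r' k1 (hr1.trans k2) (hD.mono k2) k3
    · -- successor case
      push Not at hL
      obtain ⟨γ, hγ, hγ2⟩ := hL
      obtain ⟨U1, hU1, hU1u, Q1, hQ1, hQ01, htr⟩ := ih γ hγ U Q e hU hQ
        (fun ξ hξ => ⟨(he ξ hξ).1, hγ.trans (he ξ hξ).2⟩)
      have h1 : ∀ ξ, ∃ q, Cs σ q ∧ Q1 ξ ⊆ q ∧ ∃ b b' : Bool, D q ν (true, e ξ, γ, false) b ∧
          D q ν (true, e ξ, γ, true) b' := by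
        intro ξ
        obtain ⟨q1, k1, k2, b, k3⟩ := G0 hν hσ (true, e ξ, γ, false) (hQ1 ξ)
        obtain ⟨q2, l1, l2, b', l3⟩ := G0 hν hσ (true, e ξ, γ, true) k1
        exact ⟨q2, l1, k2.trans l2, b, b', k3.mono l2, l3⟩
      choose Q2 hQ2 hQ12 b b' hb hb' using h1
      obtain ⟨U2, hU2, hU2u, hc⟩ := pigeon' hU1u (fun ξ => (b ξ, b' ξ))
      refine ⟨U2, hU2.trans hU1, hU2u, Q2, hQ2, fun ξ => (hQ01 ξ).trans (hQ12 ξ), ?_⟩
      intro ξ hξ ζ hζ r hr h1 h2 y hy t c hD hD'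
      rcases (hγ2 y hy).lt_or_eq with hyg | rfl
      · exact htr ξ (hU2 hξ) ζ (hU2 hζ) r hr ((hQ12 ξ).trans h1) ((hQ12 ζ).trans h2) y hyg t c hD hD'
      · have e1 := hc ξ hξ ζ hζ
        simp only [Prod.mk.injEq] at e1
        have key : ∀ (η : W) (j : Ix) (a a' : Bool), Q2 η ⊆ r → D (Q2 η) ν j a → D r ν j a' →
            a = a' := by
          intro η j a a' hη ha ha'
          by_contra hne
          have ha := ha.mono hη
          cases a <;> cases a'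
          · exact hne rfl
          · exact G1 hν j hr ha' ha
          · exact G1 hν j hr ha ha'
          · exact hne rfl
        cases t with
        | false =>
          have k1 := key ξ _ _ _ h1 (hb ξ) hD
          have k2 := key ζ _ _ _ h2 (hb ζ) hD'
          rw [← k1, ← e1.1] at k2
          cases b ξ <;> simp at k2
        | true =>
          have k1 := key ξ _ _ _ h1 (hb' ξ) hD
          have k2 := key ζ _ _ _ h2 (hb' ζ) hD'
          rw [← k1, ← e1.2] at k2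
          cases b' ξ <;> simp at k2
  · refine ⟨U, subset_rfl, hU, Q, hQ, fun ξ => subset_rfl, ?_⟩
    intro ξ _ ζ _ r _ _ _ y hy
    exact absurd ⟨y, hy⟩ h0

end

end H2.PX
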